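import Pool.Agent.Lib.MP_c718d4_an.NoMLUR

open Set Filter Topology

namespace Pool.Agent.Lib.MP_c718d4_an

lemma coe_avg (N : ℕ) (y : ℕ → X0) (m : ℕ) :
    (((N : ℝ)⁻¹ • ∑ i ∈ Finset.range N, y i : X0) : LI) m =
      (N : ℝ)⁻¹ * ∑ i ∈ Finset.range N, (y i : LI) m := by
  simp

lemma q_avg_le (q : Seminorm ℝ X0) {N : ℕ} (y : ℕ → X0) :
    q ((N : ℝ)⁻¹ • ∑ i ∈ Finset.range N, y i) ≤ (N : ℝ)⁻¹ * ∑ i ∈ Finset.range N, q (y i) := by
  rw [map_smul_eq_mul, Real.norm_eq_abs, abs_of_nonneg (by positivity)]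
  apply mul_le_mul_of_nonneg_left _ (by positivity)
  exact Finset.le_sum_of_subadditive q (map_zero q).le (map_add_le_add q) _ _

/-- averaging over successors -/
lemma claimA (q : Seminorm ℝ X0) {c C : ℝ} (hc : 0 < c) (hC : 0 < C)
    (hq : ∀ x : X0, c * ‖x‖ ≤ q x ∧ q x ≤ C * ‖x‖) (x : X0) (σ : Node)
    (hst : ∀ s : Node, σ.le s → ∀ k : ℕ, ∀ ε > 0, ∃ y : X0, Cl s y ∧
      (∀ m < k, (y : LI) m = (x : LI) m) ∧ q y < q x + ε) (k : ℕ) {ε : ℝ} (hε : 0 < ε) :
    ∃ (z : X0) (K : ℕ), k ≤ K ∧ (∀ m < k, (z : LI) m = (x : LI) m) ∧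
      (∀ m, K ≤ m → (z : LI) m = ind σ.A m) ∧ q z < q x + ε := by
  set ε' := min (ε / 2) 1 with hε'
  have hε'0 : 0 < ε' := by positivity
  set M : ℝ := (q x + 1) / c with hM
  have hqx : 0 ≤ q x := apply_nonneg q x
  have hM0 : 0 < M := by positivity
  obtain ⟨N, hN⟩ := exists_nat_gt (C * (M + 1) / (ε / 2))
  have hN0 : (0 : ℝ) < N := lt_of_le_of_lt (by positivity) hN
  have hNε : C * ((N : ℝ)⁻¹ * (M + 1)) < ε / 2 := by
    rw [div_lt_iff₀ (by positivity)] at hN
    rw [mul_left_comm, inv_mul_lt_iff₀ hN0]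
    linarith
  choose y hyCl hyx hyq using fun i : ℕ => hst (σ.succ i) (σ.le_succ i) k ε' hε'0
  have hyM : ∀ i, ‖y i‖ ≤ M := by
    intro i
    rw [hM, le_div_iff₀ hc, mul_comm]
    have h1 := (hq (y i)).1
    have h2 := hyq i
    have h3 : ε' ≤ 1 := min_le_right _ _
    linarith
  set η : ℝ := (N : ℝ)⁻¹ with hη
  have hη0 : 0 < η := inv_pos.mpr hN0
  -- eventual behaviour
  have E1 : ∀ᶠ m in cofinite, ∀ i ∈ Finset.range N, m ∈ σ.A → |(y i : LI) m - 1| < η := by
    rw [Filter.eventually_all_finset]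
    intro i _
    exact (Cl_mono (σ.le_succ i) (hyCl i)).eventually_one hη0
  have E2 : ∀ᶠ m in cofinite, ∀ i ∈ Finset.range N, m ∉ (σ.succ i).B → |(y i : LI) m| < η := by
    rw [Filter.eventually_all_finset]
    intro i _
    exact (hyCl i).eventually_zero hη0
  have E3 : ∀ᶠ m in cofinite, ∀ i ∈ Finset.range N, ∀ j ∈ Finset.range N, i ≠ j →
      m ∈ (σ.succ i).B → m ∈ (σ.succ j).B → m ∈ σ.A := by
    rw [Filter.eventually_all_finset]
    intro i _
    rw [Filter.eventually_all_finset]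
    intro j _
    by_cases hij : i = j
    · exact Eventually.of_forall fun m h => (h hij).elim
    · have h1 := (σ.succ_inter hij).compl_mem_cofinite
      filter_upwards [h1] with m hm _ hi hj
      by_contra hcon
      exact hm ⟨⟨hi, hj⟩, hcon⟩
  have E := (E1.and (E2.and E3))
  rw [Nat.cofinite_eq_atTop, eventually_atTop] at E
  obtain ⟨K0, hK0⟩ := E
  set z0 : X0 := (N : ℝ)⁻¹ • ∑ i ∈ Finset.range N, y i with hz0
  have hz0v : ∀ m, (z0 : LI) m = (N : ℝ)⁻¹ * ∑ i ∈ Finset.range N, (y i : LI) m :=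
    fun m => coe_avg N y m
  have hbound : ∀ m, K0 ≤ m → |ind σ.A m - (z0 : LI) m| ≤ (N : ℝ)⁻¹ * (M + 1) := by
    intro m hm
    obtain ⟨h1, h2, h3⟩ := hK0 m hm
    rw [hz0v]
    by_cases hmA : m ∈ σ.A
    · rw [ind_mem hmA]
      have e1 : (1 : ℝ) - (N : ℝ)⁻¹ * ∑ i ∈ Finset.range N, (y i : LI) m =
          (N : ℝ)⁻¹ * ∑ i ∈ Finset.range N, (1 - (y i : LI) m) := by
        rw [Finset.sum_sub_distrib, Finset.sum_const, Finset.card_range, nsmul_eq_mul, mul_one,
          mul_sub, inv_mul_cancel₀ hN0.ne']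
      rw [e1, abs_mul, abs_of_pos (inv_pos.mpr hN0)]
      apply mul_le_mul_of_nonneg_left _ (inv_pos.mpr hN0).le
      calc |∑ i ∈ Finset.range N, (1 - (y i : LI) m)| ≤
          ∑ i ∈ Finset.range N, |1 - (y i : LI) m| := Finset.abs_sum_le_sum_abs _ _
        _ ≤ ∑ i ∈ Finset.range N, η := by
            apply Finset.sum_le_sum
            intro i hi
            rw [abs_sub_comm]
            exact (h1 i hi hmA).le
        _ = 1 := by
            rw [Finset.sum_const, Finset.card_range, nsmul_eq_mul, hη, mul_inv_cancel₀ hN0.ne']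
        _ ≤ M + 1 := by linarith
    · rw [ind_notMem hmA, zero_sub, abs_neg, abs_mul, abs_of_pos (inv_pos.mpr hN0)]
      apply mul_le_mul_of_nonneg_left _ (inv_pos.mpr hN0).le
      refine (Finset.abs_sum_le_sum_abs _ _).trans ?_
      have hsum : ∑ i ∈ Finset.range N, η = 1 := by
        rw [Finset.sum_const, Finset.card_range, nsmul_eq_mul, hη, mul_inv_cancel₀ hN0.ne']
      by_cases hex : ∃ i0 ∈ Finset.range N, m ∈ (σ.succ i0).B
      · obtain ⟨i0, hi0, hmi0⟩ := hex
        have h4 : ∀ i ∈ Finset.range N, |(y i : LI) m| ≤ (if i = i0 then M else 0) + η := by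
          intro i hi
          by_cases hii : i = i0
          · rw [if_pos hii]
            have h5 : |(y i : LI) m| ≤ ‖y i‖ := (y i : LI).norm_coe_le_norm m
            have := hyM i
            linarith
          · rw [if_neg hii, zero_add]
            apply le_of_lt
            apply h2 i hi
            intro hmi
            exact hmA (h3 i hi i0 hi0 hii hmi hmi0)
        refine (Finset.sum_le_sum h4).trans ?_
        rw [Finset.sum_add_distrib, hsum, Finset.sum_ite_eq' (Finset.range N) i0 fun _ => M,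
          if_pos hi0]
      · push Not at hex
        have h4 : ∀ i ∈ Finset.range N, |(y i : LI) m| ≤ η := fun i hi =>
          (h2 i hi (hex i hi)).le
        refine (Finset.sum_le_sum h4).trans ?_
        rw [hsum]
        linarith
  set K := max K0 k with hK
  refine ⟨⟨splice K (z0 : LI) (ind σ.A), splice_mem (indA_mem σ)⟩, K, le_max_right _ _, ?_, ?_, ?_⟩
  · intro m hm
    have h1 : m < K := lt_of_lt_of_le hm (le_max_right _ _)
    change splice K (z0 : LI) (ind σ.A) m = _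
    rw [splice_lt h1, hz0v]
    have h2 : ∑ i ∈ Finset.range N, (y i : LI) m = ∑ i ∈ Finset.range N, (x : LI) m :=
      Finset.sum_congr rfl fun i _ => hyx i m hm
    rw [h2, Finset.sum_const, Finset.card_range, nsmul_eq_mul, ← mul_assoc,
      inv_mul_cancel₀ hN0.ne', one_mul]
  · intro m hm
    exact splice_ge hm
  · set z : X0 := ⟨splice K (z0 : LI) (ind σ.A), splice_mem (indA_mem σ)⟩ with hz
    have h1 : ‖z - z0‖ ≤ (N : ℝ)⁻¹ * (M + 1) := by
      have h2 : ‖((z - z0 : X0) : LI)‖ ≤ (N : ℝ)⁻¹ * (M + 1) := by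
        rw [BoundedContinuousFunction.norm_le (by positivity)]
        intro m
        have h3 : ((z - z0 : X0) : LI) m = splice K (z0 : LI) (ind σ.A) m - (z0 : LI) m := rfl
        rw [h3, Real.norm_eq_abs]
        by_cases hm : m < K
        · rw [splice_lt hm, sub_self, abs_zero]
          positivity
        · rw [splice_ge (not_lt.mp hm)]
          exact hbound m ((le_max_left _ _).trans (not_lt.mp hm))
      exact h2
    have h2 : q z ≤ q z0 + q (z - z0) := by
      have e : z = z0 + (z - z0) := by abel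
      calc q z = q (z0 + (z - z0)) := congrArg q e
        _ ≤ q z0 + q (z - z0) := map_add_le_add q z0 (z - z0)
    have h3 : q (z - z0) ≤ C * ((N : ℝ)⁻¹ * (M + 1)) :=
      (hq _).2.trans (mul_le_mul_of_nonneg_left h1 hC.le)
    have h4 : q z0 ≤ q x + ε' := by
      refine (q_avg_le q y).trans ?_
      have h5 : ∑ i ∈ Finset.range N, q (y i) ≤ ∑ i ∈ Finset.range N, (q x + ε') :=
        Finset.sum_le_sum fun i _ => (hyq i).le
      rw [Finset.sum_const, Finset.card_range, nsmul_eq_mul] at h5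
      calc (N : ℝ)⁻¹ * ∑ i ∈ Finset.range N, q (y i) ≤ (N : ℝ)⁻¹ * (N * (q x + ε')) :=
            mul_le_mul_of_nonneg_left h5 (by positivity)
        _ = q x + ε' := by rw [← mul_assoc, inv_mul_cancel₀ hN0.ne', one_mul]
    have h6 : ε' ≤ ε / 2 := min_le_left _ _
    linarith

end Pool.Agent.Lib.MP_c718d4_an
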