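import Pool.Agent.Lib.MP_c718d4_an.Points

open Set Filter Topology

namespace Pool.Agent.Lib.MP_c718d4_an

variable {X : Type*} [NormedAddCommGroup X] [NormedSpace ℝ X] (ι : X →ₗᵢ[ℝ] LI)

/-- restriction of functionals to the space -/
noncomputable def restr (Φ : LI →L[ℝ] ℝ) : X →L[ℝ] ℝ := Φ.comp ι.toContinuousLinearMap

lemma restr_apply (Φ : LI →L[ℝ] ℝ) (x : X) : restr ι Φ x = Φ (ι x) := rfl

/-- evaluation at an integer -/
noncomputable def ev (n : ℕ) : LI →L[ℝ] ℝ := BoundedContinuousFunction.evalCLM ℝ n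

/-- the set of all point evaluations -/
def pts : Set (X →L[ℝ] ℝ) :=
  (range fun n : ℕ => restr ι (ev n)) ∪ (range fun t : Node => restr ι (dl t))

/-- closed span of the point evaluations -/
noncomputable def DD : Submodule ℝ (X →L[ℝ] ℝ) := (Submodule.span ℝ (pts ι)).topologicalClosure

lemma ev_mem (n : ℕ) : restr ι (ev n) ∈ DD ι :=
  Submodule.le_topologicalClosure _ (Submodule.subset_span (Or.inl ⟨n, rfl⟩))

lemma dl_mem (t : Node) : restr ι (dl t) ∈ DD ι :=
  Submodule.le_topologicalClosure _ (Submodule.subset_span (Or.inr ⟨t, rfl⟩))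

lemma mem_DD_of_approx {φ : X →L[ℝ] ℝ}
    (h : ∀ ε > 0, ∃ ψ ∈ DD ι, ∀ x : X, |φ x - ψ x| ≤ ε * ‖x‖) : φ ∈ DD ι := by
  have hcl : IsClosed (DD ι : Set (X →L[ℝ] ℝ)) := Submodule.isClosed_topologicalClosure _
  have : φ ∈ closure (DD ι : Set (X →L[ℝ] ℝ)) := by
    rw [Metric.mem_closure_iff]
    intro ε hε
    obtain ⟨ψ, hψ, hψ'⟩ := h (ε / 2) (by positivity)
    refine ⟨ψ, hψ, ?_⟩
    rw [dist_eq_norm]
    have : ‖φ - ψ‖ ≤ ε / 2 := by
      apply ContinuousLinearMap.opNorm_le_bound _ (by positivity)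
      intro x
      exact hψ' x
    linarith
  rwa [hcl.closure_eq] at this

/-- the ideal of sets to which functionals can be restricted within the closed span -/
def GG (V : Set ℕ) : Prop := ∀ Φ : LI →L[ℝ] ℝ, restr ι (rs Φ V) ∈ DD ι

variable {ι}

lemma GG_mono {V W : Set ℕ} (h : V ⊆ W) (hW : GG ι W) : GG ι V := by
  intro Φ
  have h1 := hW (rs Φ V)
  have h2 : rs (rs Φ V) W = rs Φ V := by
    ext f
    rw [rs_apply, rs_apply, mulInd_of_subset h, rs_apply]
  rwa [h2] at h1

lemma GG_union {V W : Set ℕ} (hV : GG ι V) (hW : GG ι W) : GG ι (V ∪ W) := by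
  intro Φ
  have h1 := hV Φ
  have h2 : restr ι (rs Φ (W \ V)) ∈ DD ι := GG_mono sdiff_subset hW Φ
  have h3 : restr ι (rs Φ (V ∪ W)) = restr ι (rs Φ V) + restr ι (rs Φ (W \ V)) := by
    ext x
    rw [restr_apply, rs_apply, mulInd_union, map_add]
    rfl
  rw [h3]
  exact Submodule.add_mem _ h1 h2

lemma GG_empty : GG ι ∅ := by
  intro Φ
  have : restr ι (rs Φ ∅) = 0 := by
    ext x
    rw [restr_apply, rs_apply]
    have h1 : mulInd ∅ (ι x) = 0 := by
      ext n
      rw [mulInd_notMem (Set.notMem_empty n)]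
      rfl
    rw [h1, map_zero]
    rfl
  rw [this]
  exact Submodule.zero_mem _

lemma GG_single (n : ℕ) : GG ι {n} := by
  intro Φ
  have : restr ι (rs Φ {n}) = Φ (ind {n}) • restr ι (ev n) := by
    ext x
    rw [restr_apply, rs_apply]
    have h1 : mulInd {n} (ι x) = (ι x) n • ind {n} := by
      ext m
      by_cases hm : m ∈ ({n} : Set ℕ)
      · rw [mulInd_mem hm, BoundedContinuousFunction.smul_apply, ind_mem hm, mem_singleton_iff.mp hm]
        simp
      · rw [mulInd_notMem hm, BoundedContinuousFunction.smul_apply, ind_notMem hm]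
        simp
    rw [h1, map_smul]
    change (ι x) n * Φ (ind {n}) = Φ (ind {n}) * (ι x) n
    ring
  rw [this]
  exact Submodule.smul_mem _ _ (ev_mem ι n)

lemma GG_finite {S : Set ℕ} (hS : S.Finite) : GG ι S := by
  induction S, hS using Set.Finite.induction_on with
  | empty => exact GG_empty
  | insert _ _ ih =>
    rw [insert_eq]
    exact GG_union (GG_single _) ih

variable (ι)

/-- the filter of sets with small complement inside `A t` -/
def HF (t : Node) : Filter ℕ where
  sets := {U | GG ι (t.A \ U)}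
  univ_sets := by
    change GG ι (t.A \ univ)
    rw [sdiff_univ]
    exact GG_empty
  sets_of_superset := fun {U V} hU hUV => by
    change GG ι (t.A \ V)
    exact GG_mono (sdiff_subset_sdiff_right hUV) hU
  inter_sets := fun {U V} hU hV => by
    change GG ι (t.A \ (U ∩ V))
    rw [sdiff_inter]
    exact GG_union hU hV

lemma mem_HF {t : Node} {U : Set ℕ} : U ∈ HF ι t ↔ GG ι (t.A \ U) := Iff.rfl

lemma HF_le (t : Node) (ih : ∀ s : Node, s.le t ∧ s.ht < t.ht → GG ι s.A) : HF ι t ≤ FF t := by
  refine le_inf (le_inf ?_ ?_) (le_iInf₂ fun s hs => ?_)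
  · intro U hU
    rw [mem_HF]
    exact GG_mono (fun m hm => hm.2) (GG_finite (mem_cofinite.mp hU))
  · rw [le_principal_iff, mem_HF, sdiff_self]
    exact GG_empty
  · rw [le_principal_iff, mem_HF]
    refine GG_mono ?_ (ih s hs)
    intro m hm
    exact not_not.mp hm.2

variable {ι}

lemma GG_step (hι : ∀ x, ι x ∈ X0) (t : Node)
    (ih : ∀ s : Node, s.le t ∧ s.ht < t.ht → GG ι s.A) : GG ι t.A := by
  have hle := HF_le ι t ih
  by_cases hne : (FF t).NeBot
  · intro Φ
    apply mem_DD_of_approx
    intro ε hε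
    obtain ⟨V, hV, hVf⟩ := lemL (GG ι) GG_empty (fun V W => GG_union) Φ (ε := ε / 2) (by positivity)
    refine ⟨restr ι (rs Φ (V ∩ t.A)) + (Φ (ind t.A) - Φ (ind (V ∩ t.A))) • restr ι (dl t), ?_, ?_⟩
    · exact Submodule.add_mem _ (GG_mono inter_subset_left hV Φ)
        (Submodule.smul_mem _ _ (dl_mem ι t))
    · intro x
      set a := dl t (ι x) with ha
      have hconv : Tendsto (ι x) (FF t) (𝓝 a) := X0_le_CV hne (hι x)
      have hnx : ‖ι x‖ = ‖x‖ := ι.norm_map x
      set g : LI := mulInd t.A (ι x) - a • ind t.A with hg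
      have hga : ∀ m, m ∈ t.A → g m = (ι x) m - a := by
        intro m hm
        rw [hg, BoundedContinuousFunction.sub_apply, mulInd_mem hm,
          BoundedContinuousFunction.smul_apply, ind_mem hm]
        simp
      have hgn : ∀ m, m ∉ t.A → g m = 0 := by
        intro m hm
        rw [hg, BoundedContinuousFunction.sub_apply, mulInd_notMem hm,
          BoundedContinuousFunction.smul_apply, ind_notMem hm]
        simp
      have hax : |a| ≤ ‖x‖ := hnx ▸ abs_dl_le t (ι x)
      have hgnorm : ‖g‖ ≤ 2 * ‖x‖ := by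
        rw [BoundedContinuousFunction.norm_le (by positivity)]
        intro m
        by_cases hm : m ∈ t.A
        · rw [hga m hm, Real.norm_eq_abs]
          have h1 : |(ι x) m| ≤ ‖x‖ := hnx ▸ (ι x).norm_coe_le_norm m
          refine (abs_sub _ _).trans ?_
          linarith
        · rw [hgn m hm, norm_zero]
          positivity
      have happ : ∀ ε' > 0, ∃ W, GG ι W ∧ ‖g - mulInd W g‖ ≤ ε' := by
        intro ε' hε'
        have hU : {m | |(ι x) m - a| < ε'} ∈ HF ι t := by
          apply hle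
          have := (Metric.tendsto_nhds.mp hconv) ε' hε'
          filter_upwards [this] with m hm
          rwa [Real.dist_eq] at hm
        refine ⟨_, (mem_HF ι).mp hU, ?_⟩
        rw [BoundedContinuousFunction.norm_le hε'.le]
        intro m
        rw [BoundedContinuousFunction.sub_apply]
        by_cases hm : m ∈ t.A
        · by_cases hmU : |(ι x) m - a| < ε'
          · rw [mulInd_notMem (fun h => h.2 hmU), sub_zero, hga m hm]
            exact hmU.le
          · rw [mulInd_mem (show m ∈ t.A \ {m | |(ι x) m - a| < ε'} from ⟨hm, hmU⟩), sub_self,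
              norm_zero]
            exact hε'.le
        · rw [mulInd_notMem (fun h => hm h.1), sub_zero, hgn m hm, norm_zero]
          exact hε'.le
      have h1 := hVf g happ
      have h2 : restr ι (rs Φ t.A) x - (restr ι (rs Φ (V ∩ t.A)) +
          (Φ (ind t.A) - Φ (ind (V ∩ t.A))) • restr ι (dl t)) x = Φ g - Φ (mulInd V g) := by
        have h3 : mulInd V g = mulInd (V ∩ t.A) (ι x) - a • ind (V ∩ t.A) := by
          ext m
          rw [BoundedContinuousFunction.sub_apply, BoundedContinuousFunction.smul_apply]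
          by_cases hmV : m ∈ V
          · by_cases hm : m ∈ t.A
            · rw [mulInd_mem hmV, hga m hm, mulInd_mem (show m ∈ V ∩ t.A from ⟨hmV, hm⟩),
                ind_mem (show m ∈ V ∩ t.A from ⟨hmV, hm⟩)]
              simp
            · rw [mulInd_mem hmV, hgn m hm, mulInd_notMem (fun h => hm h.2),
                ind_notMem (fun h => hm h.2)]
              simp
          · rw [mulInd_notMem hmV, mulInd_notMem (fun h => hmV h.1), ind_notMem (fun h => hmV h.1)]
            simp
        rw [h3, hg, map_sub, map_sub, map_smul, map_smul]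
        change Φ (mulInd t.A (ι x)) - (Φ (mulInd (V ∩ t.A) (ι x)) +
          (Φ (ind t.A) - Φ (ind (V ∩ t.A))) * a) =
          Φ (mulInd t.A (ι x)) - a * Φ (ind t.A) -
            (Φ (mulInd (V ∩ t.A) (ι x)) - a * Φ (ind (V ∩ t.A)))
        ring
      rw [h2]
      refine h1.trans ?_
      calc ε / 2 * ‖g‖ ≤ ε / 2 * (2 * ‖x‖) := mul_le_mul_of_nonneg_left hgnorm (by positivity)
        _ = ε * ‖x‖ := by ring
  · have hbot : FF t = ⊥ := not_neBot.mp hne
    rw [hbot] at hle
    have h1 : (∅ : Set ℕ) ∈ HF ι t := hle mem_bot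
    rw [mem_HF, sdiff_empty] at h1
    exact h1

lemma GG_node (hι : ∀ x, ι x ∈ X0) (t : Node) : GG ι t.A := by
  have key : ∀ α : Ordinal.{0}, ∀ t : Node, t.ht = α → GG ι t.A := by
    intro α
    induction α using WellFoundedLT.induction with
    | ind α ih =>
      intro t ht
      apply GG_step hι
      intro s hs
      exact ih s.ht (by rw [← ht]; exact hs.2) s rfl
  exact key t.ht t rfl

lemma GG_span (hι : ∀ x, ι x ∈ X0) {h : LI} (hh : h ∈ Submodule.span ℝ gens) :
    GG ι {m | h m ≠ 0} := by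
  induction hh using Submodule.span_induction with
  | mem x hx =>
    rcases hx with ⟨n, rfl⟩ | ⟨r, rfl⟩
    · refine GG_mono ?_ (GG_single n)
      intro m hm
      by_contra hcon
      exact hm (ind_notMem hcon)
    · refine GG_mono ?_ (GG_node hι r)
      intro m hm
      by_contra hcon
      exact hm (ind_notMem hcon)
  | zero =>
    refine GG_mono ?_ GG_empty
    intro m hm
    exact (hm rfl).elim
  | add x y _ _ hx hy =>
    refine GG_mono ?_ (GG_union hx hy)
    intro m hm
    by_contra hcon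
    simp only [mem_union, not_or] at hcon
    apply hm
    rw [BoundedContinuousFunction.add_apply, not_not.mp hcon.1, not_not.mp hcon.2, add_zero]
  | smul c x _ hx =>
    refine GG_mono ?_ hx
    intro m hm h0
    apply hm
    rw [BoundedContinuousFunction.smul_apply, h0, smul_zero]

/-- Every functional on the space is in the closed span of the point evaluations. -/
theorem restr_mem (hι : ∀ x, ι x ∈ X0) (Φ : LI →L[ℝ] ℝ) : restr ι Φ ∈ DD ι := by
  apply mem_DD_of_approx
  intro ε hε
  obtain ⟨V, hV, hVf⟩ := lemL (GG ι) GG_empty (fun V W => GG_union) Φ hε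
  refine ⟨restr ι (rs Φ V), hV Φ, fun x => ?_⟩
  have hkey := hVf (ι x) (by
    intro ε' hε'
    have hx : ι x ∈ closure ((Submodule.span ℝ gens : Submodule ℝ LI) : Set LI) := hι x
    obtain ⟨h, hh, hxh⟩ := Metric.mem_closure_iff.mp hx ε' hε'
    rw [dist_eq_norm] at hxh
    refine ⟨_, GG_span hι hh, ?_⟩
    rw [BoundedContinuousFunction.norm_le hε'.le]
    intro m
    rw [BoundedContinuousFunction.sub_apply]
    by_cases hm : h m = 0
    · rw [mulInd_notMem (show m ∉ {m | h m ≠ 0} from fun h' => h' hm), sub_zero]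
      have h1 : (ι x - h) m = (ι x) m := by
        rw [BoundedContinuousFunction.sub_apply, hm, sub_zero]
      rw [← h1]
      exact ((ι x - h).norm_coe_le_norm m).trans hxh.le
    · rw [mulInd_mem (show m ∈ {m | h m ≠ 0} from hm), sub_self, norm_zero]
      exact hε'.le)
  rw [ι.norm_map] at hkey
  exact hkey

/-- Every separable subspace has separable dual. -/
theorem asplund (hι : ∀ x, ι x ∈ X0) (Y : Submodule ℝ X) (hY : TopologicalSpace.SeparableSpace Y) :
    TopologicalSpace.SeparableSpace (Y →L[ℝ] ℝ) := by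
  let L : (X →L[ℝ] ℝ) →L[ℝ] (Y →L[ℝ] ℝ) := (ContinuousLinearMap.compL ℝ Y X ℝ).flip Y.subtypeL
  have hL : ∀ φ : X →L[ℝ] ℝ, ∀ y : Y, L φ y = φ (y : X) := fun φ y => rfl
  set S : Set (Y →L[ℝ] ℝ) := L '' (pts ι) with hS
  -- the set of restrictions of point evaluations is countable
  have hSc : S.Countable := by
    have h1 : S ⊆ (range fun n : ℕ => L (restr ι (ev n))) ∪
        (insert 0 ((fun t : Node => L (restr ι (dl t))) ''
          (⋃ i : ℕ, {t : Node | dl t (ι (TopologicalSpace.denseSeq Y i : X)) ≠ 0}))) := by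
      rintro _ ⟨_, (⟨n, rfl⟩ | ⟨t, rfl⟩), rfl⟩
      · exact Or.inl ⟨n, rfl⟩
      · right
        by_cases h : t ∈ ⋃ i : ℕ, {t : Node | dl t (ι (TopologicalSpace.denseSeq Y i : X)) ≠ 0}
        · exact Or.inr ⟨t, h, rfl⟩
        · left
          simp only [mem_iUnion, not_exists] at h
          have h2 : ∀ i, L (restr ι (dl t)) (TopologicalSpace.denseSeq Y i) = 0 := fun i =>
            not_not.mp (h i)
          have h3 : (fun y : Y => L (restr ι (dl t)) y) = fun _ => 0 := by
            apply Continuous.ext_on (TopologicalSpace.denseRange_denseSeq Y)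
              (L (restr ι (dl t))).continuous continuous_const
            rintro _ ⟨i, rfl⟩
            exact h2 i
          ext y
          exact congrFun h3 y
    refine Set.Countable.mono h1 ((countable_range _).union (Set.Countable.insert _ ?_))
    refine Set.Countable.image (countable_iUnion fun i => ?_) _
    exact X0_le_CC (hι (TopologicalSpace.denseSeq Y i : X))
  -- every functional is in the closed span
  have hall : ∀ ψ : Y →L[ℝ] ℝ, ψ ∈ closure ((Submodule.span ℝ S : Submodule ℝ (Y →L[ℝ] ℝ)) :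
      Set (Y →L[ℝ] ℝ)) := by
    intro ψ
    obtain ⟨φ, hφ, _⟩ := exists_extension_norm_eq (𝕜 := ℝ) Y ψ
    obtain ⟨Φ, hΦ, _⟩ := exists_extension_norm_eq (𝕜 := ℝ) (LinearMap.range ι.toLinearMap)
      (φ.comp (ι.equivRange.symm : LinearMap.range ι.toLinearMap →L[ℝ] X))
    have h1 : restr ι Φ = φ := by
      ext x
      have h2 : Φ (ι x) = φ x := by simpa using hΦ (ι.equivRange x)
      exact h2
    have h2 : L φ = ψ := by
      ext y
      exact hφ y
    have h3 : φ ∈ DD ι := h1 ▸ restr_mem hι Φ
    have h4 := Submodule.topologicalClosure_map L (Submodule.span ℝ (pts ι))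
    have h5 : L φ ∈ (Submodule.map (L : (X →L[ℝ] ℝ) →ₗ[ℝ] (Y →L[ℝ] ℝ))
        (Submodule.span ℝ (pts ι))).topologicalClosure := h4 ⟨φ, h3, rfl⟩
    rw [Submodule.map_span, h2] at h5
    exact h5
  have hsep : TopologicalSpace.IsSeparable (univ : Set (Y →L[ℝ] ℝ)) := by
    have h1 : TopologicalSpace.IsSeparable (closure ((Submodule.span ℝ S :
        Submodule ℝ (Y →L[ℝ] ℝ)) : Set (Y →L[ℝ] ℝ))) :=
      (hSc.isSeparable.span (R := ℝ)).closure
    exact h1.mono fun ψ _ => hall ψ
  exact TopologicalSpace.isSeparable_univ_iff.mp hsep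

end Pool.Agent.Lib.MP_c718d4_an
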