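import Pool.Agent.Lib.MP_c718d4_an.Space

open Set Filter Topology

namespace Pool.Agent.Lib.MP_c718d4_an

/-! ### Limits along ultrafilters -/

lemma exists_ulim (U : Ultrafilter ℕ) (f : LI) :
    ∃ a : ℝ, ‖a‖ ≤ ‖f‖ ∧ Tendsto f U (𝓝 a) := by
  have hcomp : IsCompact (Metric.closedBall (0 : ℝ) ‖f‖) := isCompact_closedBall _ _
  obtain ⟨a, ha, hle⟩ := hcomp.ultrafilter_le_nhds (U.map f) (by
    rw [le_principal_iff, Ultrafilter.mem_coe, Ultrafilter.mem_map]
    have : ∀ n, f n ∈ Metric.closedBall (0 : ℝ) ‖f‖ := fun n => by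
      rw [mem_closedBall_zero_iff]
      exact f.norm_coe_le_norm n
    exact Filter.univ_mem' this)
  rw [mem_closedBall_zero_iff] at ha
  exact ⟨a, ha, hle⟩

/-- the limit functional along an ultrafilter -/
noncomputable def ulim (U : Ultrafilter ℕ) : LI →L[ℝ] ℝ :=
  LinearMap.mkContinuous
    { toFun := fun f => (exists_ulim U f).choose
      map_add' := fun f g => by
        have h1 := (exists_ulim U f).choose_spec.2
        have h2 := (exists_ulim U g).choose_spec.2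
        have h3 := (exists_ulim U (f + g)).choose_spec.2
        exact tendsto_nhds_unique h3 (h1.add h2)
      map_smul' := fun c f => by
        have h1 := (exists_ulim U f).choose_spec.2
        have h3 := (exists_ulim U (c • f)).choose_spec.2
        exact tendsto_nhds_unique h3 (h1.const_smul c) } 1
    (fun f => by
      rw [one_mul]
      exact (exists_ulim U f).choose_spec.1)

lemma tendsto_ulim (U : Ultrafilter ℕ) (f : LI) : Tendsto f U (𝓝 (ulim U f)) :=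
  (exists_ulim U f).choose_spec.2

lemma norm_ulim_le (U : Ultrafilter ℕ) (f : LI) : |ulim U f| ≤ ‖f‖ :=
  (exists_ulim U f).choose_spec.1

/-! ### Multiplication by indicators -/

/-- multiplication by an indicator -/
noncomputable def mulInd (V : Set ℕ) : LI →L[ℝ] LI :=
  LinearMap.mkContinuous
    { toFun := fun f => ind V * f
      map_add' := fun f g => mul_add _ _ _
      map_smul' := fun c f => by
        ext n
        simp [mul_left_comm] } 1
    (fun f => by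
      rw [one_mul]
      exact norm_ind_mul_le V f)

lemma mulInd_apply (V : Set ℕ) (f : LI) : mulInd V f = ind V * f := rfl

lemma mulInd_mem {V : Set ℕ} {f : LI} {n : ℕ} (h : n ∈ V) : mulInd V f n = f n := by
  rw [mulInd_apply, BoundedContinuousFunction.mul_apply, ind_mem h, one_mul]

lemma mulInd_notMem {V : Set ℕ} {f : LI} {n : ℕ} (h : n ∉ V) : mulInd V f n = 0 := by
  rw [mulInd_apply, BoundedContinuousFunction.mul_apply, ind_notMem h, zero_mul]

lemma norm_mulInd_le (V : Set ℕ) (f : LI) : ‖mulInd V f‖ ≤ ‖f‖ := norm_ind_mul_le V f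

lemma mulInd_of_subset {V W : Set ℕ} (h : V ⊆ W) (f : LI) : mulInd V (mulInd W f) = mulInd V f := by
  ext n
  by_cases hn : n ∈ V
  · rw [mulInd_mem hn, mulInd_mem hn, mulInd_mem (h hn)]
  · rw [mulInd_notMem hn, mulInd_notMem hn]

lemma mulInd_union (V W : Set ℕ) (f : LI) :
    mulInd (V ∪ W) f = mulInd V f + mulInd (W \ V) f := by
  ext n
  rw [BoundedContinuousFunction.add_apply]
  by_cases h1 : n ∈ V
  · rw [mulInd_mem (Or.inl h1), mulInd_mem h1, mulInd_notMem (fun h => h.2 h1), add_zero]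
  · by_cases h2 : n ∈ W
    · rw [mulInd_mem (Or.inr h2), mulInd_notMem h1,
        mulInd_mem (show n ∈ W \ V from ⟨h2, h1⟩), zero_add]
    · rw [mulInd_notMem (fun h => h.elim h1 h2), mulInd_notMem h1,
        mulInd_notMem (fun h => h2 h.1), add_zero]

/-- restriction of a functional to a set -/
noncomputable def rs (Φ : LI →L[ℝ] ℝ) (V : Set ℕ) : LI →L[ℝ] ℝ := Φ.comp (mulInd V)

lemma rs_apply (Φ : LI →L[ℝ] ℝ) (V : Set ℕ) (f : LI) : rs Φ V f = Φ (mulInd V f) := rfl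

lemma norm_rs_le (Φ : LI →L[ℝ] ℝ) (V : Set ℕ) : ‖rs Φ V‖ ≤ ‖Φ‖ := by
  apply ContinuousLinearMap.opNorm_le_bound _ (norm_nonneg Φ)
  intro f
  rw [rs_apply]
  exact (Φ.le_opNorm _).trans (mul_le_mul_of_nonneg_left (norm_mulInd_le V f) (norm_nonneg Φ))

/-- a vector on which a functional is almost attained, with sign -/
lemma exists_almost (Ψ : LI →L[ℝ] ℝ) {r : ℝ} (hr : r < ‖Ψ‖) : ∃ f : LI, ‖f‖ ≤ 1 ∧ r < Ψ f := by
  obtain ⟨f, hf1, hf2⟩ := Ψ.exists_lt_apply_of_lt_opNorm hr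
  rw [Real.norm_eq_abs] at hf2
  rcases lt_abs.mp hf2 with h | h
  · exact ⟨f, hf1.le, h⟩
  · refine ⟨-f, by rw [norm_neg]; exact hf1.le, by rw [map_neg]; exact h⟩

lemma rs_superadd (Φ : LI →L[ℝ] ℝ) {V W : Set ℕ} (hd : Disjoint V W) :
    ‖rs Φ V‖ + ‖rs Φ W‖ ≤ ‖rs Φ (V ∪ W)‖ := by
  by_contra hcon
  push Not at hcon
  set δ : ℝ := (‖rs Φ V‖ + ‖rs Φ W‖ - ‖rs Φ (V ∪ W)‖) / 2 with hδ
  have hδ0 : 0 < δ := by
    rw [hδ]
    linarith
  obtain ⟨f, hf1, hf2⟩ := exists_almost (rs Φ V) (show ‖rs Φ V‖ - δ < ‖rs Φ V‖ by linarith)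
  obtain ⟨g, hg1, hg2⟩ := exists_almost (rs Φ W) (show ‖rs Φ W‖ - δ < ‖rs Φ W‖ by linarith)
  set h : LI := mulInd V f + mulInd W g with hh
  have hmem : ∀ n, n ∈ V → n ∉ W := fun n h1 h2 => Set.disjoint_left.mp hd h1 h2
  have hnorm : ‖h‖ ≤ 1 := by
    rw [BoundedContinuousFunction.norm_le zero_le_one]
    intro n
    rw [hh, BoundedContinuousFunction.add_apply]
    by_cases h1 : n ∈ V
    · rw [mulInd_mem h1, mulInd_notMem (hmem n h1), add_zero]
      exact (f.norm_coe_le_norm n).trans hf1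
    · by_cases h2 : n ∈ W
      · rw [mulInd_mem h2, mulInd_notMem h1, zero_add]
        exact (g.norm_coe_le_norm n).trans hg1
      · rw [mulInd_notMem h1, mulInd_notMem h2, add_zero, norm_zero]
        exact zero_le_one
  have hval : mulInd (V ∪ W) h = mulInd V f + mulInd W g := by
    ext n
    by_cases hn : n ∈ V ∪ W
    · rw [mulInd_mem hn]
    · rw [mulInd_notMem hn, BoundedContinuousFunction.add_apply,
        mulInd_notMem (fun h => hn (Or.inl h)), mulInd_notMem (fun h => hn (Or.inr h)), add_zero]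
  have h3 : rs Φ (V ∪ W) h = rs Φ V f + rs Φ W g := by
    rw [rs_apply, hval, map_add]
    rfl
  have h4 : rs Φ (V ∪ W) h ≤ ‖rs Φ (V ∪ W)‖ := by
    have h5 := (rs Φ (V ∪ W)).le_opNorm h
    have h6 : rs Φ (V ∪ W) h ≤ ‖rs Φ (V ∪ W) h‖ := Real.le_norm_self _
    have h7 : ‖rs Φ (V ∪ W)‖ * ‖h‖ ≤ ‖rs Φ (V ∪ W)‖ * 1 :=
      mul_le_mul_of_nonneg_left hnorm (ContinuousLinearMap.opNorm_nonneg _)
    linarith
  rw [h3] at h4
  have h8 : 2 * δ = ‖rs Φ V‖ + ‖rs Φ W‖ - ‖rs Φ (V ∪ W)‖ := by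
    rw [hδ]
    ring
  linarith

/-- Uniform approximation of a functional by its restriction to a member of an ideal. -/
lemma lemL (G : Set ℕ → Prop) (hG0 : G ∅) (hGU : ∀ V W, G V → G W → G (V ∪ W))
    (Φ : LI →L[ℝ] ℝ) {ε : ℝ} (hε : 0 < ε) : ∃ V, G V ∧ ∀ f : LI,
      (∀ ε' > 0, ∃ W, G W ∧ ‖f - mulInd W f‖ ≤ ε') → |Φ f - Φ (mulInd V f)| ≤ ε * ‖f‖ := by
  set S : Set ℝ := {r | ∃ V, G V ∧ r = ‖rs Φ V‖} with hS
  have hSne : S.Nonempty := ⟨_, ∅, hG0, rfl⟩
  have hSbdd : BddAbove S := ⟨‖Φ‖, by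
    rintro _ ⟨V, _, rfl⟩
    exact norm_rs_le Φ V⟩
  obtain ⟨_, ⟨V, hV, rfl⟩, hVs⟩ := exists_lt_of_lt_csSup hSne (show sSup S - ε < sSup S by linarith)
  refine ⟨V, hV, fun f hf => ?_⟩
  apply le_of_forall_pos_le_add
  intro δ hδ
  obtain ⟨W, hW, hfW⟩ := hf (δ / (‖Φ‖ + 1)) (by positivity)
  have h1 : ‖rs Φ (W \ V)‖ ≤ ε := by
    have h2 := rs_superadd Φ (V := V) (W := W \ V) disjoint_sdiff_right
    rw [union_sdiff_self] at h2
    have h3 : ‖rs Φ (V ∪ W)‖ ≤ sSup S := le_csSup hSbdd ⟨_, hGU V W hV hW, rfl⟩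
    linarith
  have h2 : Φ f - Φ (mulInd V f) = Φ (f - mulInd (V ∪ W) f) + rs Φ (W \ V) f := by
    rw [mulInd_union, rs_apply, map_sub, map_add]
    ring
  have h3 : ‖f - mulInd (V ∪ W) f‖ ≤ δ / (‖Φ‖ + 1) := by
    rw [BoundedContinuousFunction.norm_le (by positivity)]
    intro n
    rw [BoundedContinuousFunction.sub_apply]
    by_cases hn : n ∈ V ∪ W
    · rw [mulInd_mem hn, sub_self, norm_zero]
      positivity
    · rw [mulInd_notMem hn, sub_zero]
      have h4 : (f - mulInd W f) n = f n := by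
        rw [BoundedContinuousFunction.sub_apply, mulInd_notMem (fun h => hn (Or.inr h)), sub_zero]
      rw [← h4]
      exact ((f - mulInd W f).norm_coe_le_norm n).trans hfW
  have h4 : |Φ (f - mulInd (V ∪ W) f)| ≤ δ := by
    have h5 := Φ.le_opNorm (f - mulInd (V ∪ W) f)
    rw [Real.norm_eq_abs] at h5
    have h6 : ‖Φ‖ * ‖f - mulInd (V ∪ W) f‖ ≤ ‖Φ‖ * (δ / (‖Φ‖ + 1)) :=
      mul_le_mul_of_nonneg_left h3 (ContinuousLinearMap.opNorm_nonneg _)
    have h7 : ‖Φ‖ * (δ / (‖Φ‖ + 1)) ≤ δ := by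
      rw [mul_div_assoc', div_le_iff₀ (by positivity)]
      nlinarith [norm_nonneg Φ]
    linarith
  have h5 : |rs Φ (W \ V) f| ≤ ε * ‖f‖ := by
    have h6 := (rs Φ (W \ V)).le_opNorm f
    rw [Real.norm_eq_abs] at h6
    exact h6.trans (mul_le_mul_of_nonneg_right h1 (norm_nonneg f))
  rw [h2]
  refine (abs_add_le _ _).trans ?_
  linarith

end Pool.Agent.Lib.MP_c718d4_an
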