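import Pool.Agent.Lib.MP_c718d4_an.Average

open Set Filter Topology

namespace Pool.Agent.Lib.MP_c718d4_an

/-- value of half the sum of two indicators of finite sets -/
noncomputable def hv (E E' : Finset ℕ) (m : ℕ) : ℝ :=
  2⁻¹ * ((if m ∈ E then 1 else 0) + (if m ∈ E' then 1 else 0))

lemma cesaro_inv : Tendsto (fun N : ℕ => (N : ℝ)⁻¹ * ∑ n ∈ Finset.range N, (1 : ℝ) / (n + 1))
    atTop (𝓝 0) :=
  Filter.Tendsto.cesaro tendsto_one_div_add_atTop_nhds_zero_nat

lemma succ_diff_inf (t : Node) {i j : ℕ} (hij : i ≠ j) : ((t.succ i).A \ (t.succ j).A).Infinite := by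
  intro hfin
  apply t.succ_diff_infinite i
  refine (hfin.union (t.succ_inter hij)).subset ?_
  rintro m ⟨hm1, hm2⟩
  by_cases hm3 : m ∈ (t.succ j).A
  · exact Or.inr ⟨⟨Node.A_subset_B _ hm1, Node.A_subset_B _ hm3⟩, hm2⟩
  · exact Or.inl ⟨hm1, hm3⟩

/-- half sum of the indicators of two successors -/
noncomputable def xx (t : Node) : X0 :=
  (2⁻¹ : ℝ) • (⟨ind (t.succ 0).A, indA_mem _⟩ + ⟨ind (t.succ 1).A, indA_mem _⟩)

lemma xx_apply (t : Node) (m : ℕ) :
    (xx t : LI) m = 2⁻¹ * (ind (t.succ 0).A m + ind (t.succ 1).A m) := rfl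

lemma xx_Cl (t : Node) : Cl t (xx t) := by
  constructor
  · apply tendsto_nhds_of_eventually_eq
    rw [eventually_inf_principal]
    filter_upwards [(Node.A_diff (t.le_succ 0)).compl_mem_cofinite,
      (Node.A_diff (t.le_succ 1)).compl_mem_cofinite] with m h0 h1 hm
    have h0' : m ∈ (t.succ 0).A := by
      by_contra hcon
      exact h0 ⟨hm, hcon⟩
    have h1' : m ∈ (t.succ 1).A := by
      by_contra hcon
      exact h1 ⟨hm, hcon⟩
    rw [xx_apply, ind_mem h0', ind_mem h1']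
    norm_num
  · apply tendsto_nhds_of_eventually_eq
    rw [eventually_inf_principal]
    filter_upwards [(Node.B_diff (t.le_succ 0)).compl_mem_cofinite,
      (Node.B_diff (t.le_succ 1)).compl_mem_cofinite] with m h0 h1 hm
    have h0' : m ∉ (t.succ 0).A := fun hcon => h0 ⟨Node.A_subset_B _ hcon, hm⟩
    have h1' : m ∉ (t.succ 1).A := fun hcon => h1 ⟨Node.A_subset_B _ hcon, hm⟩
    rw [xx_apply, ind_notMem h0', ind_notMem h1']
    norm_num

theorem no_mlur (q : Seminorm ℝ X0) {c C : ℝ} (hc : 0 < c) (hC : 0 < C)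
    (hq : ∀ x : X0, c * ‖x‖ ≤ q x ∧ q x ≤ C * ‖x‖) : ¬ MLUR q := by
  classical
  -- stabilise
  obtain ⟨t0, ht0⟩ := stab (ι := ℕ × Finset ℕ × Finset ℕ × ℚ)
    (fun i t => ∃ y : X0, Cl t y ∧ (∀ m < i.1, (y : LI) m = hv i.2.1 i.2.2.1 m) ∧
      q y < (i.2.2.2 : ℝ)) (by
      rintro i s t hst ⟨y, hy1, hy2⟩
      exact ⟨y, Cl_mono hst hy1, hy2⟩)
  set x := xx t0 with hx
  have hst : ∀ s : Node, t0.le s → ∀ k : ℕ, ∀ ε > 0, ∃ y : X0, Cl s y ∧
      (∀ m < k, (y : LI) m = (x : LI) m) ∧ q y < q x + ε := by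
    intro s hs k ε hε
    obtain ⟨r, hr1, hr2⟩ := exists_rat_btwn (show q x < q x + ε by linarith)
    set E := (Finset.range k).filter (· ∈ (t0.succ 0).A) with hE
    set E' := (Finset.range k).filter (· ∈ (t0.succ 1).A) with hE'
    have hval : ∀ m < k, (x : LI) m = hv E E' m := by
      intro m hm
      have e1 : (if m ∈ E then (1 : ℝ) else 0) = ind (t0.succ 0).A m := by
        by_cases h : m ∈ (t0.succ 0).A
        · rw [if_pos (by rw [hE, Finset.mem_filter]; exact ⟨Finset.mem_range.mpr hm, h⟩),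
            ind_mem h]
        · rw [if_neg (by rw [hE, Finset.mem_filter]; exact fun h' => h h'.2), ind_notMem h]
      have e2 : (if m ∈ E' then (1 : ℝ) else 0) = ind (t0.succ 1).A m := by
        by_cases h : m ∈ (t0.succ 1).A
        · rw [if_pos (by rw [hE', Finset.mem_filter]; exact ⟨Finset.mem_range.mpr hm, h⟩),
            ind_mem h]
        · rw [if_neg (by rw [hE', Finset.mem_filter]; exact fun h' => h h'.2), ind_notMem h]
      unfold hv
      rw [e1, e2, hx, xx_apply]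
    obtain ⟨y, hy1, hy2, hy3⟩ := ht0 (k, E, E', r) s hs ⟨x, xx_Cl t0, hval, hr1⟩
    refine ⟨y, hy1, fun m hm => ?_, lt_trans hy3 hr2⟩
    rw [hy2 m hm, hval m hm]
  have hA : ∀ (i : ℕ) (k : ℕ) {ε : ℝ}, 0 < ε → ∃ (z : X0) (K : ℕ), k ≤ K ∧
      (∀ m < k, (z : LI) m = (x : LI) m) ∧
      (∀ m, K ≤ m → (z : LI) m = ind (t0.succ i).A m) ∧ q z < q x + ε := fun i k {ε} hε =>
    claimA q hc hC hq x (t0.succ i) (fun s hs => hst s (Node.le_trans (t0.le_succ i) hs)) k hε
  have hB : ∀ n k : ℕ, ∃ (z z' : X0) (K : ℕ), k ≤ K ∧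
      (∀ m < k, (z : LI) m = (x : LI) m) ∧ (∀ m < k, (z' : LI) m = (x : LI) m) ∧
      (∀ m, K ≤ m → (z : LI) m = ind (t0.succ 0).A m) ∧
      (∀ m, K ≤ m → (z' : LI) m = ind (t0.succ 1).A m) ∧
      q z < q x + 1 / ((n : ℝ) + 1) ∧ q z' < q x + 1 / ((n : ℝ) + 1) := by
    intro n k
    obtain ⟨z, K, h1, h2, h3, h4⟩ := hA 0 k (ε := 1 / ((n : ℝ) + 1)) (by positivity)
    obtain ⟨z', K', h1', h2', h3', h4'⟩ := hA 1 k (ε := 1 / ((n : ℝ) + 1)) (by positivity)
    exact ⟨z, z', max K K', h1.trans (le_max_left _ _), h2, h2',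
      fun m hm => h3 m ((le_max_left _ _).trans hm),
      fun m hm => h3' m ((le_max_right _ _).trans hm), h4, h4'⟩
  choose z z' K hK hz hz' hzK hzK' hqz hqz' using hB
  let k : ℕ → ℕ := fun n => Nat.rec 0 (fun n kn => K n kn) n
  have hks : ∀ n, k (n + 1) = K n (k n) := fun n => rfl
  have hkmono : Monotone k := monotone_nat_of_le_succ fun n => by
    rw [hks]
    exact hK n (k n)
  let a : ℕ → X0 := fun n => z n (k n)
  let b : ℕ → X0 := fun n => z' n (k n)
  have hqx : 0 ≤ q x := apply_nonneg q x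
  have hfrac : ∀ n : ℕ, 1 / ((n : ℝ) + 1) ≤ 1 := fun n => by
    rw [div_le_one (by positivity)]
    have : (0 : ℝ) ≤ n := Nat.cast_nonneg n
    linarith
  set M : ℝ := (q x + 1) / c with hM
  have hM0 : 0 < M := by positivity
  have haM : ∀ n, ‖a n‖ ≤ M := by
    intro n
    rw [hM, le_div_iff₀ hc, mul_comm]
    have h1 := (hq (a n)).1
    have h2 := hqz n (k n)
    have h3 := hfrac n
    change q (a n) < _ at h2
    linarith
  have hbM : ∀ n, ‖b n‖ ≤ M := by
    intro n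
    rw [hM, le_div_iff₀ hc, mul_comm]
    have h1 := (hq (b n)).1
    have h2 := hqz' n (k n)
    have h3 := hfrac n
    change q (b n) < _ at h2
    linarith
  have hxM : ‖x‖ ≤ M := by
    rw [hM, le_div_iff₀ hc, mul_comm]
    have h1 := (hq x).1
    linarith
  -- the defects have disjoint supports
  let w : ℕ → X0 := fun n => a n + b n - (2 : ℝ) • x
  have hwv : ∀ n m, (w n : LI) m = (a n : LI) m + (b n : LI) m - 2 * (x : LI) m :=
    fun n m => rfl
  have hw1 : ∀ n m, m < k n → (w n : LI) m = 0 := by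
    intro n m hm
    rw [hwv, hz n (k n) m hm, hz' n (k n) m hm]
    ring
  have hw2 : ∀ n m, k (n + 1) ≤ m → (w n : LI) m = 0 := by
    intro n m hm
    rw [hwv, hzK n (k n) m hm, hzK' n (k n) m hm, hx, xx_apply]
    ring
  have hwM : ∀ n m, |(w n : LI) m| ≤ 4 * M := by
    intro n m
    rw [hwv]
    have h1 : |(a n : LI) m| ≤ M := ((a n : LI).norm_coe_le_norm m).trans (haM n)
    have h2 : |(b n : LI) m| ≤ M := ((b n : LI).norm_coe_le_norm m).trans (hbM n)
    have h3 : |(x : LI) m| ≤ M := ((x : LI).norm_coe_le_norm m).trans hxM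
    rw [abs_le] at h1 h2 h3 ⊢
    constructor <;> linarith [h1.1, h1.2, h2.1, h2.2, h3.1, h3.2]
  have hsumw : ∀ N m, |∑ n ∈ Finset.range N, (w n : LI) m| ≤ 4 * M := by
    intro N m
    by_cases hex : ∃ n0 ∈ Finset.range N, (w n0 : LI) m ≠ 0
    · obtain ⟨n0, hn0, hne⟩ := hex
      have hkn : k n0 ≤ m := by
        by_contra hcon
        exact hne (hw1 n0 m (not_le.mp hcon))
      have hkn' : m < k (n0 + 1) := by
        by_contra hcon
        exact hne (hw2 n0 m (not_lt.mp hcon))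
      rw [Finset.sum_eq_single_of_mem n0 hn0]
      · exact hwM n0 m
      · intro n _ hnn
        rcases Nat.lt_or_gt_of_ne hnn with h | h
        · apply hw2
          exact (hkmono (by omega : n + 1 ≤ n0)).trans hkn
        · apply hw1
          exact hkn'.trans_le (hkmono (by omega : n0 + 1 ≤ n))
    · push Not at hex
      rw [Finset.sum_eq_zero hex, abs_zero]
      positivity
  -- the perturbations
  let u : ℕ → X0 := fun N => ((N + 1 : ℕ) : ℝ)⁻¹ • ∑ n ∈ Finset.range (N + 1), a n - x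
  let v : ℕ → X0 := fun N => ((N + 1 : ℕ) : ℝ)⁻¹ • ∑ n ∈ Finset.range (N + 1), b n - x
  let e0 : ℕ → ℝ := fun N => (N : ℝ)⁻¹ * ∑ n ∈ Finset.range N, (1 : ℝ) / (n + 1)
  let e : ℕ → ℝ := fun N => e0 (N + 1) + C * (((N + 1 : ℕ) : ℝ)⁻¹ * (4 * M))
  have he0 : ∀ N, 0 ≤ e0 N := fun N => by positivity
  have hcast : ∀ N : ℕ, (0 : ℝ) < ((N + 1 : ℕ) : ℝ) := fun N => by positivity
  have havg : ∀ (y : ℕ → X0), (∀ n, q (y n) < q x + 1 / ((n : ℝ) + 1)) → ∀ N : ℕ,
      q (((N + 1 : ℕ) : ℝ)⁻¹ • ∑ n ∈ Finset.range (N + 1), y n) ≤ q x + e0 (N + 1) := by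
    intro y hy N
    refine (q_avg_le q y).trans ?_
    have h1 : ∑ n ∈ Finset.range (N + 1), q (y n) ≤
        ∑ n ∈ Finset.range (N + 1), (q x + 1 / ((n : ℝ) + 1)) :=
      Finset.sum_le_sum fun n _ => (hy n).le
    rw [Finset.sum_add_distrib, Finset.sum_const, Finset.card_range, nsmul_eq_mul] at h1
    calc ((N + 1 : ℕ) : ℝ)⁻¹ * ∑ n ∈ Finset.range (N + 1), q (y n) ≤
        ((N + 1 : ℕ) : ℝ)⁻¹ * (((N + 1 : ℕ) : ℝ) * q x +
          ∑ n ∈ Finset.range (N + 1), 1 / ((n : ℝ) + 1)) :=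
          mul_le_mul_of_nonneg_left h1 (inv_pos.mpr (hcast N)).le
      _ = q x + e0 (N + 1) := by
          rw [mul_add, ← mul_assoc, inv_mul_cancel₀ (hcast N).ne', one_mul]
  have hxu : ∀ N, q (x + u N) ≤ q x + e0 (N + 1) := by
    intro N
    have e1 : x + u N = ((N + 1 : ℕ) : ℝ)⁻¹ • ∑ n ∈ Finset.range (N + 1), a n := by
      simp only [u]
      abel
    rw [e1]
    exact havg a (fun n => hqz n (k n)) N
  have hxv : ∀ N, q (x + v N) ≤ q x + e0 (N + 1) := by
    intro N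
    have e1 : x + v N = ((N + 1 : ℕ) : ℝ)⁻¹ • ∑ n ∈ Finset.range (N + 1), b n := by
      simp only [v]
      abel
    rw [e1]
    exact havg b (fun n => hqz' n (k n)) N
  have huv : ∀ N, ‖u N + v N‖ ≤ ((N + 1 : ℕ) : ℝ)⁻¹ * (4 * M) := by
    intro N
    have h1 : ‖((u N + v N : X0) : LI)‖ ≤ ((N + 1 : ℕ) : ℝ)⁻¹ * (4 * M) := by
      rw [BoundedContinuousFunction.norm_le (by positivity)]
      intro m
      have h2 : ((u N + v N : X0) : LI) m =
          ((N + 1 : ℕ) : ℝ)⁻¹ * ∑ n ∈ Finset.range (N + 1), (w n : LI) m := by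
        have h3 : ((u N + v N : X0) : LI) m = (u N : LI) m + (v N : LI) m := rfl
        have h4 : (u N : LI) m =
            ((N + 1 : ℕ) : ℝ)⁻¹ * ∑ n ∈ Finset.range (N + 1), (a n : LI) m - (x : LI) m := by
          rw [← coe_avg]
          rfl
        have h5 : (v N : LI) m =
            ((N + 1 : ℕ) : ℝ)⁻¹ * ∑ n ∈ Finset.range (N + 1), (b n : LI) m - (x : LI) m := by
          rw [← coe_avg]
          rfl
        rw [h3, h4, h5]
        simp only [hwv]
        rw [Finset.sum_sub_distrib, Finset.sum_add_distrib, Finset.sum_const, Finset.card_range,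
          nsmul_eq_mul, mul_sub, mul_add]
        have h6 : ((N + 1 : ℕ) : ℝ)⁻¹ * (((N + 1 : ℕ) : ℝ) * (2 * (x : LI) m)) =
            2 * (x : LI) m := by
          rw [← mul_assoc, inv_mul_cancel₀ (hcast N).ne', one_mul]
        rw [h6]
        ring
      rw [h2, Real.norm_eq_abs, abs_mul, abs_of_pos (inv_pos.mpr (hcast N))]
      exact mul_le_mul_of_nonneg_left (hsumw (N + 1) m) (inv_pos.mpr (hcast N)).le
    exact h1
  have hxu' : ∀ N, q (x - u N) ≤ q x + e N := by
    intro N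
    have e1 : x - u N = (x + v N) - (u N + v N) := by abel
    rw [e1]
    refine (map_sub_le_add q _ _).trans ?_
    have h1 := hxv N
    have h2 : q (u N + v N) ≤ C * (((N + 1 : ℕ) : ℝ)⁻¹ * (4 * M)) :=
      (hq _).2.trans (mul_le_mul_of_nonneg_left (huv N) hC.le)
    simp only [e]
    linarith
  -- the perturbations are not small
  have hubig : ∀ N, 1 / 2 ≤ ‖u N‖ := by
    intro N
    obtain ⟨m, hm1, hm2⟩ := (succ_diff_inf t0 (i := 0) (j := 1) (by norm_num)).exists_gt (k (N + 1))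
    have h3 : ∀ n ∈ Finset.range (N + 1), (a n : LI) m = 1 := by
      intro n hn
      have hn' : n + 1 ≤ N + 1 := by
        have := Finset.mem_range.mp hn
        omega
      have h4 := hzK n (k n) m ((hkmono hn').trans hm2.le)
      change (a n : LI) m = _ at h4
      rw [h4, ind_mem hm1.1]
    have h4 : (x : LI) m = 1 / 2 := by
      rw [hx, xx_apply, ind_mem hm1.1, ind_notMem hm1.2]
      norm_num
    have h5 : (u N : LI) m = 1 / 2 := by
      have h6 : (u N : LI) m =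
          ((N + 1 : ℕ) : ℝ)⁻¹ * ∑ n ∈ Finset.range (N + 1), (a n : LI) m - (x : LI) m := by
        rw [← coe_avg]
        rfl
      rw [h6, Finset.sum_congr rfl h3, Finset.sum_const, Finset.card_range, nsmul_eq_mul, mul_one,
        inv_mul_cancel₀ (hcast N).ne', h4]
      norm_num
    have h6 : |(u N : LI) m| ≤ ‖u N‖ := (u N : LI).norm_coe_le_norm m
    rw [h5] at h6
    rwa [abs_of_pos (by norm_num)] at h6
  have hxpos : 0 < q x := by
    obtain ⟨m, hm1, hm2⟩ := (succ_diff_inf t0 (i := 0) (j := 1) (by norm_num)).exists_gt 0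
    have h4 : (x : LI) m = 1 / 2 := by
      rw [hx, xx_apply, ind_mem hm1.1, ind_notMem hm1.2]
      norm_num
    have h6 : |(x : LI) m| ≤ ‖x‖ := (x : LI).norm_coe_le_norm m
    rw [h4, abs_of_pos (by norm_num)] at h6
    have h7 := (hq x).1
    have h8 : 0 < c * ‖x‖ := by
      apply mul_pos hc
      linarith
    linarith
  have hte : Tendsto e atTop (𝓝 0) := by
    have h1 : Tendsto (fun N => e0 (N + 1)) atTop (𝓝 0) :=
      cesaro_inv.comp (tendsto_add_atTop_nat 1)
    have h2 : Tendsto (fun N : ℕ => C * (((N + 1 : ℕ) : ℝ)⁻¹ * (4 * M))) atTop (𝓝 0) := by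
      have h3 : Tendsto (fun N : ℕ => ((N + 1 : ℕ) : ℝ)⁻¹) atTop (𝓝 0) :=
        tendsto_inv_atTop_nhds_zero_nat.comp (tendsto_add_atTop_nat 1)
      have h4 := (h3.mul_const (4 * M)).const_mul C
      rwa [zero_mul, mul_zero] at h4
    have h3 := h1.add h2
    rwa [add_zero] at h3
  have hele : ∀ N, e0 (N + 1) ≤ e N := fun N => by
    have : 0 ≤ C * (((N + 1 : ℕ) : ℝ)⁻¹ * (4 * M)) := by positivity
    simp only [e]
    linarith
  have hubd : ∀ N, q (u N) ≤ C * (2 * M) := by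
    intro N
    refine (hq _).2.trans (mul_le_mul_of_nonneg_left ?_ hC.le)
    have h1 : ‖u N‖ = ‖(u N : LI)‖ := rfl
    rw [h1, BoundedContinuousFunction.norm_le (by positivity)]
    intro m
    have h6 : (u N : LI) m =
        ((N + 1 : ℕ) : ℝ)⁻¹ * ∑ n ∈ Finset.range (N + 1), (a n : LI) m - (x : LI) m := by
      rw [← coe_avg]
      rfl
    rw [h6, Real.norm_eq_abs]
    have h7 : |((N + 1 : ℕ) : ℝ)⁻¹ * ∑ n ∈ Finset.range (N + 1), (a n : LI) m| ≤ M := by
      rw [abs_mul, abs_of_pos (inv_pos.mpr (hcast N)), inv_mul_le_iff₀ (hcast N)]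
      refine (Finset.abs_sum_le_sum_abs _ _).trans ?_
      have h8 : ∑ n ∈ Finset.range (N + 1), |(a n : LI) m| ≤ ∑ n ∈ Finset.range (N + 1), M :=
        Finset.sum_le_sum fun n _ => ((a n : LI).norm_coe_le_norm m).trans (haM n)
      rwa [Finset.sum_const, Finset.card_range, nsmul_eq_mul] at h8
    have h8 : |(x : LI) m| ≤ M := ((x : LI).norm_coe_le_norm m).trans hxM
    refine (abs_sub _ _).trans ?_
    linarith
  refine not_mlur q hxpos u e hte (fun N => (hxu N).trans ?_) hxu' hubd (δ := c * (1 / 2))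
    (by positivity) (fun N => ?_)
  · have := hele N
    linarith
  · exact (mul_le_mul_of_nonneg_left (hubig N) hc.le).trans (hq (u N)).1

end Pool.Agent.Lib.MP_c718d4_an
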