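import Pool.Agent.Lib.MP_c718d4_an.Dual
import Pool.Agent.Lib.MP_c718d4_an.NoMLURMain

open Set Filter Topology

namespace Pool.Agent.Lib.MP_c718d4_an

/-- The space as a type. -/
def XX : Type := X0

noncomputable instance : NormedAddCommGroup XX := inferInstanceAs (NormedAddCommGroup X0)
noncomputable instance : NormedSpace ℝ XX := inferInstanceAs (NormedSpace ℝ X0)
instance : CompleteSpace XX := inferInstanceAs (CompleteSpace X0)

/-- the inclusion -/
noncomputable def incl : XX →ₗᵢ[ℝ] LI where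
  toFun := fun x => (x : X0).1
  map_add' := fun _ _ => rfl
  map_smul' := fun _ _ => rfl
  norm_map' := fun _ => rfl

lemma incl_mem (x : XX) : incl x ∈ X0 := x.2

theorem asplund_XX (Y : Submodule ℝ XX) (hY : TopologicalSpace.SeparableSpace Y) :
    TopologicalSpace.SeparableSpace (Y →L[ℝ] ℝ) :=
  asplund incl_mem Y hY

theorem strict_XX : ∃ p : Seminorm ℝ XX,
    (∃ c C : ℝ, 0 < c ∧ 0 < C ∧ ∀ x : XX, c * ‖x‖ ≤ p x ∧ p x ≤ C * ‖x‖) ∧
      ∀ x y : XX, p x = 1 → p y = 1 → x ≠ y → p (x + y) < 2 :=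
  ⟨scNorm X0, scNorm_equiv X0, scNorm_strict X0⟩

theorem not_mlur_XX (q : Seminorm ℝ XX) {c C : ℝ} (hc : 0 < c) (hC : 0 < C)
    (hq : ∀ x : XX, c * ‖x‖ ≤ q x ∧ q x ≤ C * ‖x‖) : ¬ MLUR q :=
  no_mlur q hc hC hq

end Pool.Agent.Lib.MP_c718d4_an
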