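import Pool.Agent.Lib.MP_c718d4_an.Space

open Set Filter Topology

namespace Pool.Agent.Lib.MP_c718d4_an

/-- midpoint local uniform rotundity of a seminorm -/
def MLUR {E : Type*} [AddCommGroup E] [Module ℝ E] (q : Seminorm ℝ E) : Prop :=
  ∀ x : E, q x = 1 → ∀ u : ℕ → E, (∀ n, q (u n) ≤ 1) →
    Tendsto (fun n => q (x + u n)) atTop (𝓝 1) →
    Tendsto (fun n => q (x - u n)) atTop (𝓝 1) →
    Tendsto (fun n => q (u n)) atTop (𝓝 0)

lemma not_mlur {E : Type*} [AddCommGroup E] [Module ℝ E] (q : Seminorm ℝ E) {x : E}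
    (hx : 0 < q x) (u : ℕ → E) (e : ℕ → ℝ) (he : Tendsto e atTop (𝓝 0))
    (h1 : ∀ n, q (x + u n) ≤ q x + e n) (h2 : ∀ n, q (x - u n) ≤ q x + e n) {S δ : ℝ}
    (hS : ∀ n, q (u n) ≤ S) (hδ : 0 < δ) (h3 : ∀ n, δ ≤ q (u n)) : ¬ MLUR q := by
  intro hM
  set S' := max S (q x) with hS'
  have hS'0 : 0 < S' := lt_max_of_lt_right hx
  set l : ℝ := q x / S' with hl
  have hl0 : 0 < l := by positivity
  have hl1 : l ≤ 1 := by
    rw [hl, div_le_one hS'0]
    exact le_max_right _ _
  have key : ∀ w : E, ∀ a : ℝ, q (x + w) ≤ q x + a → q (x + l • w) ≤ q x + l * a := by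
    intro w a hw
    have e1 : x + l • w = (1 - l) • x + l • (x + w) := by
      rw [smul_add, sub_smul, one_smul]
      abel
    rw [e1]
    refine (map_add_le_add q _ _).trans ?_
    rw [map_smul_eq_mul, map_smul_eq_mul, Real.norm_eq_abs, Real.norm_eq_abs,
      abs_of_nonneg (sub_nonneg.mpr hl1), abs_of_pos hl0]
    nlinarith
  have key1 : ∀ n, q (x + l • u n) ≤ q x + l * e n := fun n => key (u n) (e n) (h1 n)
  have key2 : ∀ n, q (x - l • u n) ≤ q x + l * e n := fun n => by
    have := key (-u n) (e n) (by rw [← sub_eq_add_neg]; exact h2 n)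
    rwa [smul_neg, ← sub_eq_add_neg] at this
  have key3 : ∀ n, 2 * q x ≤ q (x + l • u n) + q (x - l • u n) := fun n => by
    have h4 := map_add_le_add q (x + l • u n) (x - l • u n)
    have e2 : x + l • u n + (x - l • u n) = (2 : ℝ) • x := by
      rw [two_smul]
      abel
    rw [e2, map_smul_eq_mul, Real.norm_eq_abs, abs_of_pos (by norm_num : (0 : ℝ) < 2)] at h4
    exact h4
  have hle : Tendsto (fun n => l * e n) atTop (𝓝 0) := by
    have := he.const_mul l
    rwa [mul_zero] at this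
  have t1 : Tendsto (fun n => q (x + l • u n)) atTop (𝓝 (q x)) := by
    have a1 : Tendsto (fun n => q x - l * e n) atTop (𝓝 (q x)) := by
      have := hle.const_sub (q x)
      rwa [sub_zero] at this
    have a2 : Tendsto (fun n => q x + l * e n) atTop (𝓝 (q x)) := by
      have := hle.const_add (q x)
      rwa [add_zero] at this
    refine tendsto_of_tendsto_of_tendsto_of_le_of_le a1 a2 (fun n => ?_) key1
    have := key2 n
    have := key3 n
    simp only
    linarith
  have t2 : Tendsto (fun n => q (x - l • u n)) atTop (𝓝 (q x)) := by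
    have a1 : Tendsto (fun n => q x - l * e n) atTop (𝓝 (q x)) := by
      have := hle.const_sub (q x)
      rwa [sub_zero] at this
    have a2 : Tendsto (fun n => q x + l * e n) atTop (𝓝 (q x)) := by
      have := hle.const_add (q x)
      rwa [add_zero] at this
    refine tendsto_of_tendsto_of_tendsto_of_le_of_le a1 a2 (fun n => ?_) key2
    have := key1 n
    have := key3 n
    simp only
    linarith
  have hqn : ∀ w : E, q ((q x)⁻¹ • w) = (q x)⁻¹ * q w := fun w => by
    rw [map_smul_eq_mul, Real.norm_eq_abs, abs_of_pos (inv_pos.mpr hx)]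
  have hMM := hM ((q x)⁻¹ • x) (by rw [hqn, inv_mul_cancel₀ hx.ne'])
    (fun n => (q x)⁻¹ • (l • u n)) ?_ ?_ ?_
  · have h5 : ∀ n, (q x)⁻¹ * (l * δ) ≤ q ((q x)⁻¹ • (l • u n)) := fun n => by
      rw [hqn, map_smul_eq_mul, Real.norm_eq_abs, abs_of_pos hl0]
      have := h3 n
      gcongr
    have h6 := ge_of_tendsto' hMM h5
    have h7 : 0 < (q x)⁻¹ * (l * δ) := by positivity
    linarith
  · intro n
    rw [hqn, map_smul_eq_mul, Real.norm_eq_abs, abs_of_pos hl0]
    have h5 : q (u n) ≤ S' := (hS n).trans (le_max_left _ _)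
    have e3 : (q x)⁻¹ * (l * q (u n)) = q (u n) / S' := by
      rw [hl]
      field_simp
    rw [e3]
    exact (div_le_one hS'0).mpr h5
  · have e4 : ∀ n, q ((q x)⁻¹ • x + (q x)⁻¹ • (l • u n)) = (q x)⁻¹ * q (x + l • u n) := fun n => by
      rw [← smul_add, hqn]
    simp only [e4]
    have := t1.const_mul (q x)⁻¹
    rwa [inv_mul_cancel₀ hx.ne'] at this
  · have e4 : ∀ n, q ((q x)⁻¹ • x - (q x)⁻¹ • (l • u n)) = (q x)⁻¹ * q (x - l • u n) := fun n => by
      rw [← smul_sub, hqn]
    simp only [e4]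
    have := t2.const_mul (q x)⁻¹
    rwa [inv_mul_cancel₀ hx.ne'] at this

/-- Countably many decreasing properties of nodes can be stabilised. -/
lemma stab {ι : Type*} [Countable ι] (Q : ι → Node → Prop)
    (hQ : ∀ i s t, Node.le s t → Q i t → Q i s) :
    ∃ t0 : Node, ∀ i, ∀ s, t0.le s → Q i t0 → Q i s := by
  classical
  by_cases hι : Nonempty ι
  · obtain ⟨e, he⟩ := exists_surjective_nat ι
    let t : ℕ → Node := fun n => Nat.rec Node.root
      (fun n tn => if h : ∃ t', tn.le t' ∧ ¬ Q (e n) t' then h.choose else tn) n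
    have ht : ∀ n, t (n + 1) =
      if h : ∃ t', (t n).le t' ∧ ¬ Q (e n) t' then h.choose else t n := fun n => rfl
    have hle : ∀ n, (t n).le (t (n + 1)) := by
      intro n
      rw [ht]
      split_ifs with h
      · exact h.choose_spec.1
      · exact Node.le_refl _
    obtain ⟨s, hs⟩ := Node.exists_upper t hle
    refine ⟨s, fun i s' hs' hi => ?_⟩
    obtain ⟨n, rfl⟩ := he i
    by_cases h : ∃ t', (t n).le t' ∧ ¬ Q (e n) t'
    · exfalso
      have h1 : ¬ Q (e n) (t (n + 1)) := by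
        rw [ht, dif_pos h]
        exact h.choose_spec.2
      exact h1 (hQ _ _ _ (hs (n + 1)) hi)
    · push Not at h
      exact h s' (Node.le_trans (hs n) hs')
  · exact ⟨Node.root, fun i => (hι ⟨i⟩).elim⟩

/-- The class of a node. -/
def Cl (t : Node) (y : X0) : Prop :=
  Tendsto (y : LI) (cofinite ⊓ 𝓟 t.A) (𝓝 1) ∧ Tendsto (y : LI) (cofinite ⊓ 𝓟 t.Bᶜ) (𝓝 0)

lemma cof_inf_le {S T : Set ℕ} (h : (S \ T).Finite) : cofinite ⊓ 𝓟 S ≤ cofinite ⊓ 𝓟 T := by
  refine le_inf inf_le_left ?_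
  rw [le_principal_iff, mem_inf_principal]
  rw [mem_cofinite]
  refine h.subset ?_
  intro m hm
  simp only [mem_compl_iff, mem_ofPred_eq, not_forall] at hm
  obtain ⟨h1, h2⟩ := hm
  exact ⟨h1, h2⟩

lemma Cl_mono {s t : Node} (h : s.le t) {y : X0} (hy : Cl t y) : Cl s y := by
  refine ⟨hy.1.mono_left (cof_inf_le (Node.A_diff h)), hy.2.mono_left (cof_inf_le ?_)⟩
  have := Node.B_diff h
  refine this.subset ?_
  rintro m ⟨h1, h2⟩
  exact ⟨not_not.mp h2, h1⟩

lemma Cl.eventually_one {t : Node} {y : X0} (hy : Cl t y) {η : ℝ} (hη : 0 < η) :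
    ∀ᶠ m in cofinite, m ∈ t.A → |(y : LI) m - 1| < η := by
  have h1 := (Metric.tendsto_nhds.mp hy.1) η hη
  rw [eventually_inf_principal] at h1
  filter_upwards [h1] with m hm hmA
  have := hm hmA
  rwa [Real.dist_eq] at this

lemma Cl.eventually_zero {t : Node} {y : X0} (hy : Cl t y) {η : ℝ} (hη : 0 < η) :
    ∀ᶠ m in cofinite, m ∉ t.B → |(y : LI) m| < η := by
  have h1 := (Metric.tendsto_nhds.mp hy.2) η hη
  rw [eventually_inf_principal] at h1
  filter_upwards [h1] with m hm hmA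
  have := hm hmA
  rwa [Real.dist_eq, sub_zero] at this

end Pool.Agent.Lib.MP_c718d4_an
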