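import Mathlib

open Set Filter Topology

namespace Pool.Agent.Lib.MP_c718d4_an

/-- A pair `(A, B)` of sets of integers is good if `A ⊆ B` and `B \ A` is infinite. -/
def Good (p : Set ℕ × Set ℕ) : Prop := p.1 ⊆ p.2 ∧ (p.2 \ p.1).Infinite

/-- The order on pairs: `A` grows and `B` shrinks, modulo finite sets. -/
def Le (p q : Set ℕ × Set ℕ) : Prop := (p.1 \ q.1).Finite ∧ (q.2 \ p.2).Finite

lemma diff_trans {A B C : Set ℕ} (h1 : (A \ B).Finite) (h2 : (B \ C).Finite) :
    (A \ C).Finite := by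
  refine (h1.union h2).subset ?_
  intro m hm
  by_cases h : m ∈ B
  · exact Or.inr ⟨h, hm.2⟩
  · exact Or.inl ⟨hm.1, h⟩

lemma Le.refl (p : Set ℕ × Set ℕ) : Le p p := by
  constructor <;> simp

lemma Le.trans {p q r : Set ℕ × Set ℕ} (h1 : Le p q) (h2 : Le q r) : Le p r :=
  ⟨diff_trans h1.1 h2.1, diff_trans h2.2 h1.2⟩

lemma Le.of_subset {p q : Set ℕ × Set ℕ} (h1 : p.1 ⊆ q.1) (h2 : q.2 ⊆ p.2) : Le p q := by
  constructor
  · rw [sdiff_eq_empty.mpr h1]
    exact finite_empty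
  · rw [sdiff_eq_empty.mpr h2]
    exact finite_empty

/-- Filling of countable gaps. -/
lemma exists_bound_seq (p : ℕ → Set ℕ × Set ℕ) (hg : ∀ n, Good (p n))
    (hle : ∀ n, Le (p n) (p (n + 1))) : ∃ q, Good q ∧ ∀ n, Le (p n) q := by
  have hmono : ∀ n i, i ≤ n → Le (p i) (p n) := by
    intro n
    induction n with
    | zero =>
      intro i hi
      rw [Nat.le_zero.mp hi]
      exact Le.refl _
    | succ n ih =>
      intro i hi
      rcases Nat.lt_or_ge i (n + 1) with h | h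
      · exact (ih i (by omega)).trans (hle n)
      · rw [show i = n + 1 by omega]
        exact Le.refl _
  have hf : ∀ n, ∃ N : ℕ, ∀ i ≤ n, (∀ m ∈ (p i).1 \ (p n).1, m < N) ∧
      ∀ m ∈ (p n).2 \ (p i).2, m < N := by
    intro n
    have hfin : (⋃ i ∈ Finset.range (n + 1), ((p i).1 \ (p n).1 ∪ (p n).2 \ (p i).2)).Finite := by
      apply Set.Finite.biUnion (Finset.finite_toSet _)
      intro i hi
      have := hmono n i (by simpa [Nat.lt_succ_iff] using hi)
      exact this.1.union this.2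
    obtain ⟨N, hN⟩ := hfin.bddAbove
    refine ⟨N + 1, fun i hi => ⟨fun m hm => ?_, fun m hm => ?_⟩⟩
    · have : m ∈ ⋃ i ∈ Finset.range (n + 1), ((p i).1 \ (p n).1 ∪ (p n).2 \ (p i).2) :=
        mem_iUnion₂.mpr ⟨i, Finset.mem_range.mpr (by omega), Or.inl hm⟩
      have := hN this
      omega
    · have : m ∈ ⋃ i ∈ Finset.range (n + 1), ((p i).1 \ (p n).1 ∪ (p n).2 \ (p i).2) :=
        mem_iUnion₂.mpr ⟨i, Finset.mem_range.mpr (by omega), Or.inr hm⟩
      have := hN this
      omega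
  choose f hf1 using hf
  have hgex : ∀ n m, ∃ j, m ≤ j ∧ j ∈ (p n).2 \ (p n).1 := by
    intro n m
    obtain ⟨j, hj, hmj⟩ := (hg n).2.exists_gt m
    exact ⟨j, hmj.le, hj⟩
  choose g hg1 hg2 using hgex
  let k : ℕ → ℕ := fun n => Nat.rec (f 0) (fun n kn => max (f (n + 1)) (g n kn + 1)) n
  have hk0 : k 0 = f 0 := rfl
  have hks : ∀ n, k (n + 1) = max (f (n + 1)) (g n (k n) + 1) := fun n => rfl
  have hfk : ∀ n, f n ≤ k n := by
    intro n
    cases n with
    | zero => exact le_of_eq hk0.symm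
    | succ n => rw [hks]; exact le_max_left _ _
  have hgk : ∀ n, g n (k n) < k (n + 1) := by
    intro n
    rw [hks]
    exact lt_of_lt_of_le (Nat.lt_succ_self _) (le_max_right _ _)
  have hkmono : StrictMono k := strictMono_nat_of_lt_succ fun n => (hg1 n (k n)).trans_lt (hgk n)
  have hloc : ∀ m, k 0 ≤ m → ∃ n, k n ≤ m ∧ m < k (n + 1) := by
    intro m hm
    have hex : ∃ n, m < k (n + 1) := ⟨m, by
      have := hkmono.id_le (m + 1)
      simp only [id] at this
      omega⟩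
    classical
    refine ⟨Nat.find hex, ?_, Nat.find_spec hex⟩
    rcases Nat.eq_zero_or_pos (Nat.find hex) with h | h
    · rw [h]; exact hm
    · have := Nat.find_min hex (show Nat.find hex - 1 < Nat.find hex by omega)
      rw [Nat.sub_add_cancel h] at this
      omega
  have huniq : ∀ m n n', k n ≤ m → m < k (n + 1) → k n' ≤ m → m < k (n' + 1) → n = n' := by
    intro m n n' h1 h2 h3 h4
    have a1 : n < n' + 1 := hkmono.lt_iff_lt.mp (h1.trans_lt h4)
    have a2 : n' < n + 1 := hkmono.lt_iff_lt.mp (h3.trans_lt h2)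
    omega
  refine ⟨({m | ∃ n, k n ≤ m ∧ m < k (n + 1) ∧ m ∈ (p n).1},
    {m | ∃ n, k n ≤ m ∧ m < k (n + 1) ∧ m ∈ (p n).2}), ⟨?_, ?_⟩, fun i => ⟨?_, ?_⟩⟩
  · rintro m ⟨n, h1, h2, h3⟩
    exact ⟨n, h1, h2, (hg n).1 h3⟩
  · apply Set.infinite_of_injective_forall_mem (f := fun n => g n (k n))
    · apply StrictMono.injective
      apply strictMono_nat_of_lt_succ
      intro n
      exact (hgk n).trans_le (hg1 (n + 1) (k (n + 1)))
    · intro n
      refine ⟨⟨n, hg1 n (k n), hgk n, (hg2 n (k n)).1⟩, ?_⟩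
      rintro ⟨n', h1, h2, h3⟩
      have := huniq (g n (k n)) n n' (hg1 n (k n)) (hgk n) h1 h2
      subst this
      exact (hg2 n (k n)).2 h3
  · apply (Set.finite_Iio (k i)).subset
    rintro m ⟨hm1, hm2⟩
    by_contra hmk
    simp only [Set.mem_Iio, not_lt] at hmk
    obtain ⟨n, hn1, hn2⟩ := hloc m ((hkmono.monotone (Nat.zero_le i)).trans hmk)
    have hin : i ≤ n := by
      have : i < n + 1 := hkmono.lt_iff_lt.mp (hmk.trans_lt hn2)
      omega
    apply hm2
    refine ⟨n, hn1, hn2, ?_⟩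
    by_contra hmn
    have := (hf1 n i hin).1 m ⟨hm1, hmn⟩
    have := hfk n
    omega
  · apply (Set.finite_Iio (k i)).subset
    rintro m ⟨⟨n, hn1, hn2, hn3⟩, hm2⟩
    by_contra hmk
    simp only [Set.mem_Iio, not_lt] at hmk
    have hin : i ≤ n := by
      have : i < n + 1 := hkmono.lt_iff_lt.mp (hmk.trans_lt hn2)
      omega
    have := (hf1 n i hin).2 m ⟨hn3, hm2⟩
    have := hfk n
    omega

lemma exists_bound {I : Type*} [LinearOrder I] [Countable I] (c : I → Set ℕ × Set ℕ)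
    (hg : ∀ i, Good (c i)) (hle : ∀ i j, i < j → Le (c i) (c j)) :
    ∃ q, Good q ∧ ∀ i, Le (c i) q := by
  by_cases hI : Nonempty I
  · obtain ⟨e, he⟩ := exists_surjective_nat I
    let j : ℕ → I := fun n => Nat.rec (e 0) (fun n jn => max jn (e (n + 1))) n
    have hjs : ∀ n, j (n + 1) = max (j n) (e (n + 1)) := fun n => rfl
    have hle' : ∀ i i', i ≤ i' → Le (c i) (c i') := by
      intro i i' h
      rcases h.eq_or_lt with rfl | h
      · exact Le.refl _
      · exact hle i i' h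
    have hej : ∀ n, e n ≤ j n := by
      intro n
      cases n with
      | zero => exact le_rfl
      | succ n => rw [hjs]; exact le_max_right _ _
    obtain ⟨q, hq, hq'⟩ := exists_bound_seq (fun n => c (j n)) (fun n => hg _)
      (fun n => hle' _ _ (by rw [hjs]; exact le_max_left _ _))
    refine ⟨q, hq, fun i => ?_⟩
    obtain ⟨n, rfl⟩ := he i
    exact (hle' _ _ (hej n)).trans (hq' n)
  · refine ⟨(∅, univ), ⟨empty_subset _, ?_⟩, fun i => (hI ⟨i⟩).elim⟩
    simpa using Set.infinite_univ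

lemma exists_pieces (p : Set ℕ × Set ℕ) (hp : Good p) : ∃ r : ℕ → Set ℕ × Set ℕ,
    ∀ i, Good (r i) ∧ Le p (r i) ∧ ((r i).1 \ p.1).Infinite ∧
      ∀ j, i ≠ j → (r i).2 ∩ (r j).2 ⊆ p.1 := by
  let e : ℕ ↪ (p.2 \ p.1 : Set ℕ) := Set.Infinite.natEmbedding _ hp.2
  have he : ∀ n, (e n : ℕ) ∈ p.2 \ p.1 := fun n => (e n).2
  have hinj : ∀ m n, (e m : ℕ) = e n → m = n := fun m n h => e.injective (Subtype.ext h)
  refine ⟨fun i => (p.1 ∪ range fun k => (e (Nat.pair i (2 * k)) : ℕ),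
    p.1 ∪ range fun k => (e (Nat.pair i k) : ℕ)), fun i => ⟨⟨?_, ?_⟩, ?_, ?_, ?_⟩⟩
  · rintro m (hm | ⟨k, rfl⟩)
    · exact Or.inl hm
    · exact Or.inr ⟨2 * k, rfl⟩
  · apply Set.infinite_of_injective_forall_mem (f := fun k => (e (Nat.pair i (2 * k + 1)) : ℕ))
    · intro k k' h
      have := hinj _ _ h
      rw [Nat.pair_eq_pair] at this
      omega
    · intro k
      refine ⟨Or.inr ⟨2 * k + 1, rfl⟩, ?_⟩
      rintro (h | ⟨k', h⟩)
      · exact (he _).2 h
      · have := hinj _ _ h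
        rw [Nat.pair_eq_pair] at this
        omega
  · apply Le.of_subset
    · exact subset_union_left
    · rintro m (hm | ⟨k, rfl⟩)
      · exact hp.1 hm
      · exact (he _).1
  · apply Set.infinite_of_injective_forall_mem (f := fun k => (e (Nat.pair i (2 * k)) : ℕ))
    · intro k k' h
      have := hinj _ _ h
      rw [Nat.pair_eq_pair] at this
      omega
    · intro k
      exact ⟨Or.inr ⟨k, rfl⟩, (he _).2⟩
  · rintro j hij m ⟨hm1 | ⟨k, rfl⟩, hm2⟩
    · exact hm1
    · rcases hm2 with hm2 | ⟨k', h⟩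
      · exact hm2
      · have := hinj _ _ h
        rw [Nat.pair_eq_pair] at this
        omega

end Pool.Agent.Lib.MP_c718d4_an
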