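import Pool.Agent.Lib.MP_c718d4_an.Func

open Set Filter Topology

namespace Pool.Agent.Lib.MP_c718d4_an

/-- the filter of a node -/
def FF (t : Node) : Filter ℕ :=
  (cofinite ⊓ 𝓟 t.A) ⊓ ⨅ (s : Node) (_ : s.le t ∧ s.ht < t.ht), 𝓟 (s.A)ᶜ

lemma FF_A (t : Node) : t.A ∈ FF t :=
  mem_inf_of_left (mem_inf_of_right (mem_principal_self _))

lemma FF_cofinite {t : Node} {S : Set ℕ} (h : Sᶜ.Finite) : S ∈ FF t :=
  mem_inf_of_left (mem_inf_of_left (mem_cofinite.mpr h))

lemma FF_compl {s t : Node} (h : s.le t ∧ s.ht < t.ht) : (s.A)ᶜ ∈ FF t := by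
  apply mem_inf_of_right
  have h1 : (⨅ (s : Node) (_ : s.le t ∧ s.ht < t.ht), 𝓟 (s.A)ᶜ) ≤ 𝓟 (s.A)ᶜ :=
    iInf₂_le s h
  exact h1 (mem_principal_self _)

lemma FF_sub {t r : Node} (h : t.le r) : r.A ∈ FF t := by
  have h1 : (t.A \ r.A)ᶜ ∈ FF t := FF_cofinite (by rw [compl_compl]; exact Node.A_diff h)
  filter_upwards [h1, FF_A t] with m hm1 hm2
  by_contra hcon
  exact hm1 ⟨hm2, hcon⟩

lemma FF_notsub {t r : Node} (h : ¬ t.le r) : (r.A)ᶜ ∈ FF t := by
  obtain ⟨s, hs1, hs2, hs3⟩ := Node.inter_small h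
  have h1 : ((t.A ∩ r.A) \ s.A)ᶜ ∈ FF t := FF_cofinite (by rw [compl_compl]; exact hs3)
  filter_upwards [h1, FF_A t, FF_compl ⟨hs1, hs2⟩] with m hm1 hm2 hm3 hmr
  exact hm1 ⟨⟨hm2, hmr⟩, hm3⟩

open Classical in
/-- the evaluation functional at a node -/
noncomputable def dl (t : Node) : LI →L[ℝ] ℝ :=
  if h : (FF t).NeBot then ulim (@Ultrafilter.of ℕ (FF t) h) else 0

lemma dl_eq {t : Node} (h : (FF t).NeBot) {f : LI} {a : ℝ} (ha : Tendsto f (FF t) (𝓝 a)) :
    dl t f = a := by
  unfold dl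
  rw [dif_pos h]
  have h1 := tendsto_ulim (@Ultrafilter.of ℕ (FF t) h) f
  have h2 : Tendsto f (@Ultrafilter.of ℕ (FF t) h) (𝓝 a) := ha.mono_left (Ultrafilter.of_le _)
  exact tendsto_nhds_unique h1 h2

lemma abs_dl_le (t : Node) (f : LI) : |dl t f| ≤ ‖f‖ := by
  by_cases h : (FF t).NeBot
  · unfold dl
    rw [dif_pos h]
    exact norm_ulim_le _ f
  · unfold dl
    rw [dif_neg h]
    simp

lemma tendsto_ind_sub {t r : Node} (h : t.le r) : Tendsto (ind r.A) (FF t) (𝓝 1) := by
  apply tendsto_nhds_of_eventually_eq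
  filter_upwards [FF_sub h] with m hm
  exact ind_mem hm

lemma tendsto_ind_notsub {t r : Node} (h : ¬ t.le r) : Tendsto (ind r.A) (FF t) (𝓝 0) := by
  apply tendsto_nhds_of_eventually_eq
  filter_upwards [FF_notsub h] with m hm
  exact ind_notMem hm

lemma tendsto_ind_single (t : Node) (n : ℕ) : Tendsto (ind {n}) (FF t) (𝓝 0) := by
  apply tendsto_nhds_of_eventually_eq
  have h1 : ({n} : Set ℕ)ᶜ ∈ FF t := FF_cofinite (by rw [compl_compl]; exact finite_singleton n)
  filter_upwards [h1] with m hm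
  exact ind_notMem hm

/-- sequences converging along the filter of a node -/
noncomputable def CV (t : Node) : Submodule ℝ LI where
  carrier := {f | Tendsto f (FF t) (𝓝 (dl t f))}
  add_mem' := fun {f g} hf hg => by
    change Tendsto (f + g : LI) (FF t) (𝓝 (dl t (f + g)))
    rw [map_add]
    exact Filter.Tendsto.add hf hg
  zero_mem' := by
    change Tendsto (0 : LI) (FF t) (𝓝 (dl t 0))
    rw [map_zero]
    exact tendsto_const_nhds
  smul_mem' := fun c f hf => by
    change Tendsto (c • f : LI) (FF t) (𝓝 (dl t (c • f)))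
    rw [map_smul]
    exact Filter.Tendsto.const_smul hf c

lemma isClosed_CV (t : Node) : IsClosed (CV t : Set LI) := by
  apply isClosed_of_closure_subset
  intro f hf
  change Tendsto f (FF t) (𝓝 (dl t f))
  rw [Metric.tendsto_nhds]
  intro ε hε
  obtain ⟨g, hg, hfg⟩ := Metric.mem_closure_iff.mp hf (ε / 3) (by positivity)
  have hg' : Tendsto g (FF t) (𝓝 (dl t g)) := hg
  filter_upwards [(Metric.tendsto_nhds.mp hg') (ε / 3) (by positivity)] with m hm
  rw [Real.dist_eq] at hm ⊢
  rw [dist_eq_norm] at hfg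
  have h1 : |f m - g m| ≤ ‖f - g‖ := (f - g).norm_coe_le_norm m
  have h2 : |dl t (f - g)| ≤ ‖f - g‖ := abs_dl_le t (f - g)
  rw [map_sub] at h2
  rw [abs_le] at h1 h2
  rw [abs_lt] at hm ⊢
  constructor <;> linarith [h1.1, h1.2, h2.1, h2.2, hm.1, hm.2]

lemma X0_le_CV {t : Node} (h : (FF t).NeBot) : X0 ≤ CV t := by
  apply Submodule.topologicalClosure_minimal _ _ (isClosed_CV t)
  rw [Submodule.span_le]
  rintro _ (⟨n, rfl⟩ | ⟨r, rfl⟩)
  · change Tendsto (ind {n}) (FF t) (𝓝 (dl t (ind {n})))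
    rw [dl_eq h (tendsto_ind_single t n)]
    exact tendsto_ind_single t n
  · change Tendsto (ind r.A) (FF t) (𝓝 (dl t (ind r.A)))
    by_cases hr : t.le r
    · rw [dl_eq h (tendsto_ind_sub hr)]
      exact tendsto_ind_sub hr
    · rw [dl_eq h (tendsto_ind_notsub hr)]
      exact tendsto_ind_notsub hr

/-- sequences with countably many non-zero values at the nodes -/
noncomputable def CC : Submodule ℝ LI where
  carrier := {f | {t : Node | dl t f ≠ 0}.Countable}
  add_mem' := fun {f g} hf hg => by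
    refine (hf.union hg).mono ?_
    intro t ht
    by_contra hcon
    simp only [mem_union, not_or] at hcon
    obtain ⟨h1, h2⟩ := hcon
    apply ht
    rw [map_add, not_not.mp h1, not_not.mp h2, add_zero]
  zero_mem' := by
    simp
  smul_mem' := fun c f hf => by
    refine Set.Countable.mono ?_ hf
    intro t ht h
    apply ht
    rw [map_smul, h, smul_zero]

lemma isClosed_CC : IsClosed (CC : Set LI) := by
  apply isClosed_of_closure_subset
  intro f hf
  have h1 : ∀ n : ℕ, ∃ g ∈ CC, dist f g < 1 / ((n : ℝ) + 1) := fun n =>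
    Metric.mem_closure_iff.mp hf _ (by positivity)
  choose g hg hfg using h1
  have h2 : {t : Node | dl t f ≠ 0} ⊆ ⋃ n, {t : Node | dl t (g n) ≠ 0} := by
    intro t ht
    by_contra hcon
    simp only [mem_iUnion, not_exists] at hcon
    have h3 : ∀ n, dl t (g n) = 0 := fun n => not_not.mp (hcon n)
    apply ht
    have h4 : ∀ n : ℕ, |dl t f| ≤ 1 / ((n : ℝ) + 1) := by
      intro n
      have h5 := abs_dl_le t (f - g n)
      rw [map_sub, h3 n, sub_zero, ← dist_eq_norm] at h5
      exact h5.trans (hfg n).le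
    have h5 : |dl t f| ≤ 0 := ge_of_tendsto' tendsto_one_div_add_atTop_nhds_zero_nat h4
    exact abs_nonpos_iff.mp h5
  exact (countable_iUnion fun n => hg n).mono h2

lemma X0_le_CC : X0 ≤ CC := by
  apply Submodule.topologicalClosure_minimal _ _ isClosed_CC
  rw [Submodule.span_le]
  rintro _ (⟨n, rfl⟩ | ⟨r, rfl⟩)
  · change {t : Node | dl t (ind {n}) ≠ 0}.Countable
    have : {t : Node | dl t (ind {n}) ≠ 0} = ∅ := by
      ext t
      simp only [mem_ofPred_eq, mem_empty_iff_false, iff_false, not_not]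
      by_cases h : (FF t).NeBot
      · exact dl_eq h (tendsto_ind_single t n)
      · unfold dl
        rw [dif_neg h]
        rfl
    rw [this]
    exact countable_empty
  · change {t : Node | dl t (ind r.A) ≠ 0}.Countable
    refine (Node.countable_below r).mono ?_
    intro t ht
    by_contra hcon
    apply ht
    by_cases h : (FF t).NeBot
    · exact dl_eq h (tendsto_ind_notsub hcon)
    · unfold dl
      rw [dif_neg h]
      rfl

end Pool.Agent.Lib.MP_c718d4_an
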