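import Pool.Agent.Lib.MP_c718d4_an.Tree

open Set Filter Topology

namespace Pool.Agent.Lib.MP_c718d4_an

/-- bounded sequences -/
abbrev LI := BoundedContinuousFunction ℕ ℝ

/-- indicator sequences -/
noncomputable def ind (S : Set ℕ) : LI :=
  BoundedContinuousFunction.ofNormedAddCommGroupDiscrete (S.indicator fun _ => (1 : ℝ)) 1 (by
    intro n
    by_cases h : n ∈ S <;> simp [h])

lemma ind_apply (S : Set ℕ) (n : ℕ) : ind S n = S.indicator (fun _ => (1 : ℝ)) n := rfl

lemma ind_mem {S : Set ℕ} {n : ℕ} (h : n ∈ S) : ind S n = 1 := by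
  rw [ind_apply, indicator_of_mem h]

lemma ind_notMem {S : Set ℕ} {n : ℕ} (h : n ∉ S) : ind S n = 0 := by
  rw [ind_apply, indicator_of_notMem h]

lemma ind_mul_ind (S T : Set ℕ) : ind S * ind T = ind (S ∩ T) := by
  ext n
  rw [BoundedContinuousFunction.mul_apply]
  by_cases h1 : n ∈ S <;> by_cases h2 : n ∈ T <;>
    simp [ind_apply, h1, h2]

lemma norm_ind_mul_le (S : Set ℕ) (f : LI) : ‖ind S * f‖ ≤ ‖f‖ := by
  rw [BoundedContinuousFunction.norm_le (norm_nonneg f)]
  intro n
  rw [BoundedContinuousFunction.mul_apply, norm_mul]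
  by_cases h : n ∈ S
  · rw [ind_mem h, norm_one, one_mul]
    exact f.norm_coe_le_norm n
  · rw [ind_notMem h, norm_zero, zero_mul]
    exact norm_nonneg f

/-- generators of the space -/
def gens : Set LI := (range fun n : ℕ => ind {n}) ∪ (range fun t : Node => ind t.A)

/-- The space, as a subspace of the bounded sequences. -/
noncomputable def X0 : Submodule ℝ LI := (Submodule.span ℝ gens).topologicalClosure

instance : CompleteSpace X0 := by
  have : IsClosed (X0 : Set LI) := Submodule.isClosed_topologicalClosure _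
  exact this.completeSpace_coe

lemma single_mem (n : ℕ) : ind {n} ∈ X0 :=
  Submodule.le_topologicalClosure _ (Submodule.subset_span (Or.inl ⟨n, rfl⟩))

lemma indA_mem (t : Node) : ind t.A ∈ X0 :=
  Submodule.le_topologicalClosure _ (Submodule.subset_span (Or.inr ⟨t, rfl⟩))

/-- Sequences that vanish eventually belong to the space. -/
lemma mem_of_eventually_zero {f : LI} {N : ℕ} (h : ∀ n, N ≤ n → f n = 0) : f ∈ X0 := by
  have : f = ∑ n ∈ Finset.range N, f n • ind {n} := by
    ext m
    have h1 : (∑ n ∈ Finset.range N, f n • ind {n}) m = ∑ n ∈ Finset.range N, (f n • ind {n}) m := by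
      simp
    rw [h1]
    by_cases hm : m < N
    · rw [Finset.sum_eq_single_of_mem m (Finset.mem_range.mpr hm)]
      · simp [ind_mem]
      · intro b _ hb
        have : m ∉ ({b} : Set ℕ) := by
          simpa using hb.symm
        simp [ind_notMem this]
    · rw [h m (not_lt.mp hm)]
      symm
      apply Finset.sum_eq_zero
      intro b hb
      have : m ∉ ({b} : Set ℕ) := by
        have := Finset.mem_range.mp hb
        simp only [mem_singleton_iff]
        omega
      simp [ind_notMem this]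
  rw [this]
  exact Submodule.sum_mem _ fun n _ => Submodule.smul_mem _ _ (single_mem n)

lemma mem_of_eventually_eq {f g : LI} {N : ℕ} (hg : g ∈ X0) (h : ∀ n, N ≤ n → f n = g n) :
    f ∈ X0 := by
  have h1 : f - g ∈ X0 := mem_of_eventually_zero (N := N) fun n hn => by
    simp [h n hn]
  have h2 : f = (f - g) + g := by abel
  rw [h2]
  exact Submodule.add_mem _ h1 hg

/-- modify a sequence on an initial segment -/
noncomputable def splice (N : ℕ) (f g : LI) : LI := ind (Iio N) * f + ind (Ici N) * g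

lemma splice_lt {N : ℕ} {f g : LI} {n : ℕ} (h : n < N) : splice N f g n = f n := by
  have h1 : n ∈ Iio N := h
  have h2 : n ∉ Ici N := by simpa using h
  simp [splice, ind_mem h1, ind_notMem h2]

lemma splice_ge {N : ℕ} {f g : LI} {n : ℕ} (h : N ≤ n) : splice N f g n = g n := by
  have h1 : n ∉ Iio N := by simpa using h
  have h2 : n ∈ Ici N := h
  simp [splice, ind_notMem h1, ind_mem h2]

lemma splice_mem {N : ℕ} {f g : LI} (hg : g ∈ X0) : splice N f g ∈ X0 :=
  mem_of_eventually_eq hg fun _ hn => splice_ge hn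

/-! ### A strictly convex norm -/

lemma memlp_weight (x : LI) : Memℓp (fun n : ℕ => (1 / 2 : ℝ) ^ n * x n) 2 := by
  apply memℓp_gen
  have h1 : Summable fun n : ℕ => ‖x‖ ^ 2 * (1 / 4 : ℝ) ^ n :=
    (summable_geometric_of_lt_one (by norm_num) (by norm_num)).mul_left _
  apply Summable.of_nonneg_of_le (fun n => by positivity) _ h1
  intro n
  have e : (2 : ENNReal).toReal = 2 := by simp
  rw [e, norm_mul, Real.norm_eq_abs, abs_of_nonneg (by positivity), Real.rpow_two, mul_pow]
  have h2 : ‖x n‖ ^ 2 ≤ ‖x‖ ^ 2 := pow_le_pow_left₀ (norm_nonneg _) (x.norm_coe_le_norm n) 2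
  have h3 : ((1 / 2 : ℝ) ^ n) ^ 2 = (1 / 4) ^ n := by
    rw [← pow_mul, mul_comm n 2, pow_mul]
    norm_num
  rw [h3, mul_comm]
  exact mul_le_mul_of_nonneg_right h2 (by positivity)

/-- the weighted embedding into `ℓ²` -/
noncomputable def wt : LI →ₗ[ℝ] lp (fun _ : ℕ => ℝ) 2 where
  toFun x := ⟨fun n => (1 / 2 : ℝ) ^ n * x n, memlp_weight x⟩
  map_add' x y := by
    ext n
    simp [mul_add]
  map_smul' c x := by
    ext n
    simp [mul_left_comm]

lemma wt_apply (x : LI) (n : ℕ) : wt x n = (1 / 2 : ℝ) ^ n * x n := rfl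

lemma wt_injective : Function.Injective wt := by
  intro x y h
  ext n
  have h1 : wt x n = wt y n := by rw [h]
  rw [wt_apply, wt_apply] at h1
  exact mul_left_cancel₀ (by positivity) h1

lemma norm_wt_le (x : LI) : ‖wt x‖ ≤ 2 * ‖x‖ := by
  have e : (2 : ENNReal).toReal = 2 := by simp
  apply lp.norm_le_of_tsum_le (by norm_num) (by positivity)
  have h1 : Summable fun n : ℕ => ‖x‖ ^ 2 * (1 / 4 : ℝ) ^ n :=
    (summable_geometric_of_lt_one (by norm_num) (by norm_num)).mul_left _
  have h2 : ∀ n, ‖wt x n‖ ^ (2 : ENNReal).toReal ≤ ‖x‖ ^ 2 * (1 / 4 : ℝ) ^ n := by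
    intro n
    rw [e, wt_apply, norm_mul, Real.norm_eq_abs, abs_of_nonneg (by positivity), Real.rpow_two,
      mul_pow]
    have h2 : ‖x n‖ ^ 2 ≤ ‖x‖ ^ 2 := pow_le_pow_left₀ (norm_nonneg _) (x.norm_coe_le_norm n) 2
    have h3 : ((1 / 2 : ℝ) ^ n) ^ 2 = (1 / 4) ^ n := by
      rw [← pow_mul, mul_comm n 2, pow_mul]
      norm_num
    rw [h3, mul_comm]
    exact mul_le_mul_of_nonneg_right h2 (by positivity)
  have h3 : Summable fun n => ‖wt x n‖ ^ (2 : ENNReal).toReal :=
    Summable.of_nonneg_of_le (fun n => by positivity) h2 h1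
  refine (h3.tsum_le_tsum h2 h1).trans ?_
  rw [tsum_mul_left, tsum_geometric_of_lt_one (by norm_num) (by norm_num), e, Real.rpow_two]
  have : 0 ≤ ‖x‖ ^ 2 := by positivity
  nlinarith

/-- the strictly convex norm -/
noncomputable def scNorm (M : Submodule ℝ LI) : Seminorm ℝ M :=
  normSeminorm ℝ M + (normSeminorm ℝ (lp (fun _ : ℕ => ℝ) 2)).comp (wt.comp M.subtype)

lemma scNorm_apply (M : Submodule ℝ LI) (x : M) : scNorm M x = ‖x‖ + ‖wt (x : LI)‖ := rfl

lemma scNorm_strict (M : Submodule ℝ LI) (x y : M) (hx : scNorm M x = 1) (hy : scNorm M y = 1)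
    (hxy : x ≠ y) : scNorm M (x + y) < 2 := by
  by_contra hcon
  push Not at hcon
  apply hxy
  have h1 := hx
  have h2 := hy
  have h3 := hcon
  rw [scNorm_apply] at h1 h2 h3
  have h4 : ‖x + y‖ ≤ ‖x‖ + ‖y‖ := norm_add_le (x : LI) (y : LI)
  have h5 : wt ((x + y : M) : LI) = wt (x : LI) + wt (y : LI) := by
    rw [Submodule.coe_add, map_add]
  have h6 : ‖wt (x : LI) + wt (y : LI)‖ ≤ ‖wt (x : LI)‖ + ‖wt (y : LI)‖ := norm_add_le _ _
  rw [h5] at h3
  have h7 : SameRay ℝ (wt (x : LI)) (wt (y : LI)) := by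
    rw [sameRay_iff_norm_add]
    linarith
  have hx0 : wt (x : LI) ≠ 0 := by
    intro h
    have hx' : (x : LI) = 0 := wt_injective (by rw [h, map_zero])
    have hx'' : x = 0 := Subtype.ext hx'
    rw [hx'', map_zero] at hx
    norm_num at hx
  have hy0 : wt (y : LI) ≠ 0 := by
    intro h
    have hy' : (y : LI) = 0 := wt_injective (by rw [h, map_zero])
    have hy'' : y = 0 := Subtype.ext hy'
    rw [hy'', map_zero] at hy
    norm_num at hy
  obtain ⟨r, s, hr, hs, hrs⟩ := h7.exists_pos hx0 hy0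
  have h8 : r • x = s • y := by
    apply Subtype.ext
    apply wt_injective
    rw [Submodule.coe_smul, Submodule.coe_smul, map_smul, map_smul, hrs]
  have h9 : r = s := by
    have h10 := congrArg (scNorm M) h8
    rw [map_smul_eq_mul, map_smul_eq_mul, hx, hy, Real.norm_eq_abs, Real.norm_eq_abs,
      abs_of_pos hr, abs_of_pos hs, mul_one, mul_one] at h10
    exact h10
  rw [h9] at h8
  exact smul_right_injective _ hs.ne' h8

lemma scNorm_equiv (M : Submodule ℝ LI) : ∃ c C : ℝ, 0 < c ∧ 0 < C ∧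
    ∀ x : M, c * ‖x‖ ≤ scNorm M x ∧ scNorm M x ≤ C * ‖x‖ := by
  refine ⟨1, 3, one_pos, by norm_num, fun x => ?_⟩
  rw [scNorm_apply]
  have h1 := norm_nonneg (wt (x : LI))
  have h2 := norm_wt_le (x : LI)
  have h3 : ‖(x : LI)‖ = ‖x‖ := rfl
  constructor <;> linarith

end Pool.Agent.Lib.MP_c718d4_an
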