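import Pool.Agent.Lib.MP_c718d4_an.Pairs

open Set Filter Topology
open scoped Ordinal Cardinal

namespace Pool.Agent.Lib.MP_c718d4_an

open Classical in
/-- The `i`-th piece above a pair. -/
noncomputable def piece (p : Set ℕ × Set ℕ) : ℕ → Set ℕ × Set ℕ :=
  if hp : Good p then (exists_pieces p hp).choose else fun _ => p

lemma piece_spec {p : Set ℕ × Set ℕ} (hp : Good p) (i : ℕ) : Good (piece p i) ∧
    Le p (piece p i) ∧ ((piece p i).1 \ p.1).Infinite ∧
      ∀ j, i ≠ j → (piece p i).2 ∩ (piece p j).2 ⊆ p.1 := by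
  unfold piece
  rw [dif_pos hp]
  exact (exists_pieces p hp).choose_spec i

open Classical in
/-- A bound of a family of pairs. -/
noncomputable def bd {I : Type*} (c : I → Set ℕ × Set ℕ) : Set ℕ × Set ℕ :=
  if h : ∃ q, Good q ∧ ∀ i, Le (c i) q then h.choose else (∅, univ)

lemma bd_spec {I : Type*} {c : I → Set ℕ × Set ℕ} (h : ∃ q, Good q ∧ ∀ i, Le (c i) q) :
    Good (bd c) ∧ ∀ i, Le (c i) (bd c) := by
  unfold bd
  rw [dif_pos h]
  exact h.choose_spec

/-- The pair attached to the node `f ↾ α`. -/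
noncomputable def P (f : Ordinal.{0} → ℕ) : Ordinal.{0} → Set ℕ × Set ℕ :=
  WellFounded.fix (wellFounded_lt (α := Ordinal.{0}))
    fun α ih => bd (fun β : Set.Iio α => piece (ih β.1 β.2) (f β.1))

lemma P_eq (f : Ordinal.{0} → ℕ) (α : Ordinal.{0}) :
    P f α = bd (fun β : Set.Iio α => piece (P f β.1) (f β.1)) := by
  unfold P
  rw [WellFounded.fix_eq]

lemma P_congr {f g : Ordinal.{0} → ℕ} (α : Ordinal.{0}) (h : ∀ β < α, f β = g β) :
    P f α = P g α := by
  induction α using WellFoundedLT.induction with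
  | ind α ih =>
    rw [P_eq f, P_eq g]
    congr 1
    funext β
    rw [ih β.1 β.2 (fun γ hγ => h γ (hγ.trans β.2)), h β.1 β.2]

lemma countable_Iio_of_lt {α : Ordinal.{0}} (hα : α < ω₁) : Countable (Set.Iio α) := by
  rw [← Cardinal.mk_le_aleph0_iff, Cardinal.mk_Iio_ordinal]
  have h1 : α.card < ℵ₁ := by
    rw [← Cardinal.lt_ord, Cardinal.ord_aleph]
    exact hα
  have h2 : α.card ≤ ℵ₀ := by
    rw [← Order.lt_succ_iff, Cardinal.succ_aleph0]
    exact h1
  exact Cardinal.lift_le_aleph0.mpr h2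

lemma P_spec (f : Ordinal.{0} → ℕ) (α : Ordinal.{0}) (hα : α < ω₁) : Good (P f α) ∧
    ∀ β < α, Le (piece (P f β) (f β)) (P f α) := by
  induction α using WellFoundedLT.induction with
  | ind α ih =>
    have := countable_Iio_of_lt hα
    have hex : ∃ q, Good q ∧ ∀ β : Set.Iio α, Le (piece (P f β.1) (f β.1)) q := by
      apply exists_bound
      · intro β
        exact (piece_spec (ih β.1 β.2 (lt_trans β.2 hα)).1 (f β.1)).1
      · intro β γ hβγ
        have h1 := (ih γ.1 γ.2 (lt_trans γ.2 hα))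
        exact (h1.2 β.1 hβγ).trans (piece_spec h1.1 (f γ.1)).2.1
    have h := bd_spec hex
    rw [← P_eq] at h
    exact ⟨h.1, fun β hβ => h.2 ⟨β, hβ⟩⟩

/-- Nodes of the tree of functions from countable ordinals to the integers. -/
structure Node : Type 1 where
  ht : Ordinal.{0}
  hlt : ht < ω₁
  f : Ordinal.{0} → ℕ
  hf : ∀ β, ht ≤ β → f β = 0

namespace Node

/-- initial segment order -/
def le (s t : Node) : Prop := s.ht ≤ t.ht ∧ ∀ β < s.ht, s.f β = t.f β

/-- the first set of the pair -/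
noncomputable def A (t : Node) : Set ℕ := (P t.f t.ht).1
/-- the second set of the pair -/
noncomputable def B (t : Node) : Set ℕ := (P t.f t.ht).2

lemma le_refl (t : Node) : t.le t := ⟨_root_.le_refl _, fun _ _ => rfl⟩

lemma le_trans {r s t : Node} (h1 : r.le s) (h2 : s.le t) : r.le t :=
  ⟨h1.1.trans h2.1, fun β hβ => (h1.2 β hβ).trans (h2.2 β (hβ.trans_le h1.1))⟩

lemma good (t : Node) : Good (P t.f t.ht) := (P_spec t.f t.ht t.hlt).1

lemma A_subset_B (t : Node) : t.A ⊆ t.B := t.good.1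

/-- truncation of a node -/
noncomputable def trunc (t : Node) (γ : Ordinal.{0}) (h : γ ≤ t.ht) : Node where
  ht := γ
  hlt := h.trans_lt t.hlt
  f := fun β => if β < γ then t.f β else 0
  hf := fun _ hβ => if_neg (not_lt.mpr hβ)

lemma P_trunc (t : Node) (γ : Ordinal.{0}) (h : γ ≤ t.ht) :
    P (t.trunc γ h).f (t.trunc γ h).ht = P t.f γ := by
  apply P_congr
  intro β hβ
  exact if_pos hβ

lemma eq_of_le_of_ht {s t : Node} (h : s.le t) (hh : s.ht = t.ht) : s = t := by
  obtain ⟨a, ha, f, hf⟩ := s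
  obtain ⟨b, hb, g, hg⟩ := t
  simp only [le] at h hh
  subst hh
  have : f = g := by
    funext β
    by_cases hβ : β < a
    · exact h.2 β hβ
    · rw [hf β (not_lt.mp hβ), hg β (not_lt.mp hβ)]
  subst this
  rfl

lemma Le_piece {s t : Node} (h : s.le t) (hlt : s.ht < t.ht) :
    Le (piece (P s.f s.ht) (t.f s.ht)) (P t.f t.ht) := by
  have h1 := (P_spec t.f t.ht t.hlt).2 s.ht hlt
  rwa [← P_congr s.ht h.2] at h1

lemma Le_of_le {s t : Node} (h : s.le t) : Le (P s.f s.ht) (P t.f t.ht) := by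
  rcases h.1.eq_or_lt with hh | hh
  · rw [eq_of_le_of_ht h hh]
    exact Le.refl _
  · exact (piece_spec s.good _).2.1.trans (Le_piece h hh)

lemma A_diff {s t : Node} (h : s.le t) : (s.A \ t.A).Finite := (Le_of_le h).1
lemma B_diff {s t : Node} (h : s.le t) : (t.B \ s.B).Finite := (Le_of_le h).2

/-- The intersection of `A t` with `A r` is small if `t` is not below `r`. -/
lemma inter_small {t r : Node} (h : ¬ t.le r) : ∃ s : Node, s.le t ∧ s.ht < t.ht ∧
    ((t.A ∩ r.A) \ s.A).Finite := by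
  by_cases hag : ∀ β, β < t.ht → β < r.ht → t.f β = r.f β
  · -- then `r` is below `t`
    have hlt : r.ht < t.ht := by
      by_contra hcon
      exact h ⟨not_lt.mp hcon, fun β hβ => hag β hβ (hβ.trans_le (not_lt.mp hcon))⟩
    refine ⟨r, ⟨hlt.le, fun β hβ => (hag β (hβ.trans hlt) hβ).symm⟩, hlt, ?_⟩
    have : (t.A ∩ r.A) \ r.A = ∅ := by
      ext m
      simp
    rw [this]
    exact finite_empty
  · push Not at hag
    have hne : {β : Ordinal.{0} | β < t.ht ∧ β < r.ht ∧ t.f β ≠ r.f β}.Nonempty := hag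
    obtain ⟨γ, ⟨hγt, hγr, hγne⟩, hmin⟩ := WellFounded.has_min (wellFounded_lt (α := Ordinal.{0}))
      {β : Ordinal.{0} | β < t.ht ∧ β < r.ht ∧ t.f β ≠ r.f β} hne
    have hagree : ∀ β < γ, t.f β = r.f β := by
      intro β hβ
      by_contra hcon
      exact hmin β ⟨hβ.trans hγt, hβ.trans hγr, hcon⟩ hβ
    have hPeq : P t.f γ = P r.f γ := P_congr γ hagree
    refine ⟨t.trunc γ hγt.le, ⟨hγt.le, fun β hβ => if_pos hβ⟩, hγt, ?_⟩
    have e1 : (t.trunc γ hγt.le).A = (P t.f γ).1 := by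
      unfold A
      rw [P_trunc]
    rw [e1]
    have h1 := (P_spec t.f t.ht t.hlt).2 γ hγt
    have h2 := (P_spec r.f r.ht r.hlt).2 γ hγr
    rw [← hPeq] at h2
    have hgood : Good (P t.f γ) := (P_spec t.f γ (hγt.trans t.hlt)).1
    have hp := (piece_spec hgood (t.f γ)).2.2.2 (r.f γ) hγne
    refine (h1.2.union h2.2).subset ?_
    rintro m ⟨⟨hm1, hm2⟩, hm3⟩
    by_cases hm4 : m ∈ (piece (P t.f γ) (t.f γ)).2
    · right
      refine ⟨r.A_subset_B hm2, fun hm5 => hm3 (hp ⟨hm4, hm5⟩)⟩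
    · left
      exact ⟨t.A_subset_B hm1, hm4⟩

lemma countable_below (t : Node) : {s : Node | s.le t}.Countable := by
  have := countable_Iio_of_lt t.hlt
  have h1 : {s : Node | s.le t} ⊆
      insert t (range fun γ : Set.Iio t.ht => t.trunc γ.1 (le_of_lt γ.2)) := by
    intro s hs
    rcases hs.1.eq_or_lt with hh | hh
    · exact Or.inl (eq_of_le_of_ht hs hh)
    · right
      refine ⟨⟨s.ht, hh⟩, ?_⟩
      symm
      exact eq_of_le_of_ht (t := t.trunc s.ht hh.le)
        ⟨_root_.le_refl _, fun β hβ => (hs.2 β hβ).trans (if_pos hβ).symm⟩ rfl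
  exact ((countable_range _).insert t).mono h1

/-- Immediate successors. -/
noncomputable def succ (t : Node) (i : ℕ) : Node where
  ht := t.ht + 1
  hlt := by
    have := (Cardinal.isSuccLimit_omega 1).add_one_lt t.hlt
    exact this
  f := Function.update t.f t.ht i
  hf := fun β hβ => by
    have h1 : t.ht < β := lt_of_lt_of_le (lt_add_one _) hβ
    rw [Function.update_of_ne h1.ne']
    exact t.hf β h1.le

lemma le_succ (t : Node) (i : ℕ) : t.le (t.succ i) := by
  refine ⟨le_of_lt (lt_add_one _), fun β hβ => ?_⟩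
  simp only [succ]
  rw [Function.update_of_ne hβ.ne]

lemma Le_piece_succ (t : Node) (i : ℕ) :
    Le (piece (P t.f t.ht) i) (P (t.succ i).f (t.succ i).ht) := by
  have h := Le_piece (t.le_succ i) (lt_add_one _)
  have e : (t.succ i).f t.ht = i := by
    simp [succ]
  rwa [e] at h

lemma succ_inter (t : Node) {i j : ℕ} (hij : i ≠ j) :
    (((t.succ i).B ∩ (t.succ j).B) \ t.A).Finite := by
  have h1 := (Le_piece_succ t i).2
  have h2 := (Le_piece_succ t j).2
  have h3 := (piece_spec t.good i).2.2.2 j hij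
  refine (h1.union h2).subset ?_
  rintro m ⟨⟨hm1, hm2⟩, hm3⟩
  by_cases hm4 : m ∈ (piece (P t.f t.ht) i).2
  · right
    exact ⟨hm2, fun hm5 => hm3 (h3 ⟨hm4, hm5⟩)⟩
  · left
    exact ⟨hm1, hm4⟩

lemma succ_diff_infinite (t : Node) (i : ℕ) : ((t.succ i).A \ t.A).Infinite := by
  have h1 := (Le_piece_succ t i).1
  have h2 := (piece_spec t.good i).2.2.1
  intro hfin
  apply h2
  refine (h1.union hfin).subset ?_
  rintro m ⟨hm1, hm2⟩
  by_cases hm3 : m ∈ (t.succ i).A
  · exact Or.inr ⟨hm3, hm2⟩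
  · exact Or.inl ⟨hm1, hm3⟩

/-- The tree is `σ`-closed. -/
lemma exists_upper (t : ℕ → Node) (ht : ∀ n, (t n).le (t (n + 1))) :
    ∃ s : Node, ∀ n, (t n).le s := by
  classical
  have hmono : ∀ m n, m ≤ n → (t m).le (t n) := by
    intro m n hmn
    induction hmn with
    | refl => exact le_refl _
    | step _ ih => exact le_trans ih (ht _)
  have hbdd : BddAbove (range fun n => (t n).ht) := Ordinal.bddAbove_of_small
  let f : Ordinal.{0} → ℕ := fun β =>
    if h : ∃ n, β < (t n).ht then (t (Nat.find h)).f β else 0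
  refine ⟨⟨⨆ n, (t n).ht, Ordinal.iSup_lt_omega_one fun n => (t n).hlt, f, ?_⟩, fun n => ⟨?_, ?_⟩⟩
  · intro β hβ
    have : ¬ ∃ n, β < (t n).ht := by
      rintro ⟨n, hn⟩
      exact absurd (hβ.trans_lt hn) (not_lt.mpr (le_ciSup hbdd n))
    simp only [f]
    rw [dif_neg this]
  · exact le_ciSup hbdd n
  · intro β hβ
    have hex : ∃ n, β < (t n).ht := ⟨n, hβ⟩
    simp only [f]
    rw [dif_pos hex]
    have h1 : Nat.find hex ≤ n := Nat.find_min' hex hβ
    exact ((hmono _ _ h1).2 β (Nat.find_spec hex)).symm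

/-- the root -/
noncomputable def root : Node := ⟨0, Ordinal.omega_pos 1, fun _ => 0, fun _ _ => rfl⟩

end Node

end Pool.Agent.Lib.MP_c718d4_an
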